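import Pool.Agent.MP_ca614b_pr.H61.Defs

/-!
Explicit forms of the inverse and determinant of V, of the BLUP and of the restricted likelihood.
-/

set_option autoImplicit false

open Matrix

namespace Pool.Agent.MP_ca614b_pr.H61

noncomputable section

variable {m n : ℕ}

def rm (y : Fin m × Fin n → ℝ) (i : Fin m) : ℝ := (∑ j, y (i, j)) / n
def cm (y : Fin m × Fin n → ℝ) (j : Fin n) : ℝ := (∑ i, y (i, j)) / m

def Rm (m n : ℕ) : Matrix (Fin m × Fin n) (Fin m × Fin n) ℝ :=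
  Matrix.of fun p q => if p.1 = q.1 then (n : ℝ)⁻¹ else 0
def Cm (m n : ℕ) : Matrix (Fin m × Fin n) (Fin m × Fin n) ℝ :=
  Matrix.of fun p q => if p.2 = q.2 then (m : ℝ)⁻¹ else 0
def Mm (m n : ℕ) : Matrix (Fin m × Fin n) (Fin m × Fin n) ℝ :=
  Matrix.of fun _ _ => ((m : ℝ) * n)⁻¹

theorem Rm_mulVec (y : Fin m × Fin n → ℝ) (p : Fin m × Fin n) : (Rm m n *ᵥ y) p = rm y p.1 := by
  simp [Rm, rm, mulVec, dotProduct, Fintype.sum_prod_type_right, Finset.mul_sum, div_eq_inv_mul]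

theorem Cm_mulVec (y : Fin m × Fin n → ℝ) (p : Fin m × Fin n) : (Cm m n *ᵥ y) p = cm y p.2 := by
  simp [Cm, cm, mulVec, dotProduct, Fintype.sum_prod_type, Finset.mul_sum, div_eq_inv_mul]

theorem Mm_mulVec (y : Fin m × Fin n → ℝ) (p : Fin m × Fin n) : (Mm m n *ᵥ y) p = ybar y := by
  simp [Mm, ybar, mulVec, dotProduct, Finset.mul_sum, div_eq_inv_mul]

theorem Vm_eq (hm : (m : ℝ) ≠ 0) (hn : (n : ℝ) ≠ 0) (θ : Fin 3 → ℝ) :
    Vm m n θ = θ 0 • 1 + (n * θ 1) • Rm m n + (m * θ 2) • Cm m n := by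
  ext p q
  rw [Vm, Matrix.add_apply, Matrix.mul_apply]
  simp only [Gm, Matrix.add_apply, Matrix.smul_apply,
    mul_diagonal, transpose_apply, Fintype.sum_sum_type, Zm, Rm, Cm, of_apply, Sum.elim_inl,
    Sum.elim_inr, smul_eq_mul, add_assoc]
  congr 2
  · by_cases h : p.1 = q.1
    · simp [h]; field_simp
    · simp [h, Ne.symm h]
  · by_cases h : p.2 = q.2
    · simp [h]; field_simp
    · simp [h, Ne.symm h]

theorem RR (hn : (n : ℝ) ≠ 0) : Rm m n * Rm m n = Rm m n := by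
  ext p q
  by_cases h : p.1 = q.1
  · simp [Rm, mul_apply, Fintype.sum_prod_type, h, hn]
  · simp [Rm, mul_apply, Fintype.sum_prod_type, h]

theorem CC (hm : (m : ℝ) ≠ 0) : Cm m n * Cm m n = Cm m n := by
  ext p q
  by_cases h : p.2 = q.2
  · simp [Cm, mul_apply, Fintype.sum_prod_type, h, hm]
  · simp [Cm, mul_apply, Fintype.sum_prod_type, h]

theorem RC : Rm m n * Cm m n = Mm m n := by
  ext p q
  simp [Rm, Cm, Mm, mul_apply, Fintype.sum_prod_type]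

theorem CR : Cm m n * Rm m n = Mm m n := by
  ext p q
  simp [Rm, Cm, Mm, mul_apply, Fintype.sum_prod_type, mul_comm]

theorem RM (hn : (n : ℝ) ≠ 0) : Rm m n * Mm m n = Mm m n := by
  rw [← RC, ← Matrix.mul_assoc, RR hn]
theorem CM (hm : (m : ℝ) ≠ 0) : Cm m n * Mm m n = Mm m n := by
  rw [← CR, ← Matrix.mul_assoc, CC hm]
theorem MM (hm : (m : ℝ) ≠ 0) (hn : (n : ℝ) ≠ 0) : Mm m n * Mm m n = Mm m n := by
  nth_rewrite 1 [← RC]
  rw [Matrix.mul_assoc, CM hm, RM hn]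

def Wm (m n : ℕ) (θ : Fin 3 → ℝ) : Matrix (Fin m × Fin n) (Fin m × Fin n) ℝ :=
  (θ 0)⁻¹ • (1 - Rm m n - Cm m n + Mm m n) + (θ 0 + n * θ 1)⁻¹ • (Rm m n - Mm m n)
    + (θ 0 + m * θ 2)⁻¹ • (Cm m n - Mm m n) + (θ 0 + n * θ 1 + m * θ 2)⁻¹ • Mm m n

def Pos (θ : Fin 3 → ℝ) : Prop := ∀ k, 0 < θ k

theorem Vm_inv (hm : 0 < (m : ℝ)) (hn : 0 < (n : ℝ)) {θ : Fin 3 → ℝ} (h : Pos θ) :
    (Vm m n θ)⁻¹ = Wm m n θ := by
  apply inv_eq_right_inv
  have h0 := h 0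
  have h1 := h 1
  have h2 := h 2
  rw [Vm_eq hm.ne' hn.ne', Wm]
  simp only [Matrix.mul_add, Matrix.add_mul, Matrix.mul_sub, Matrix.smul_mul, Matrix.mul_smul,
    Matrix.one_mul, Matrix.mul_one, RR hn.ne', CC hm.ne', RC, CR, RM hn.ne', CM hm.ne']
  match_scalars <;> field_simp <;> ring

theorem det_proj {I K : Type} [Fintype I] [Fintype K] [DecidableEq I] [DecidableEq K]
    (A : Matrix I K ℝ) (B : Matrix K I ℝ) (h : B * A = 1) (s : ℝ) :
    (1 + s • (A * B)).det = (1 + s) ^ Fintype.card K := by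
  rw [← Matrix.smul_mul, det_one_add_mul_comm, Matrix.mul_smul, h]
  have : (1 : Matrix K K ℝ) + s • 1 = (1 + s) • 1 := by rw [add_smul, one_smul]
  rw [this, det_smul, det_one, mul_one]

theorem det_R (hn : (n : ℝ) ≠ 0) (s : ℝ) : (1 + s • Rm m n).det = (1 + s) ^ m := by
  have := det_proj (Matrix.of fun (p : Fin m × Fin n) (i : Fin m) => if p.1 = i then (1 : ℝ) else 0)
    (Matrix.of fun (i : Fin m) (p : Fin m × Fin n) => if i = p.1 then (n : ℝ)⁻¹ else 0) (by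
      ext i i'
      by_cases h : i = i'
      · subst h; simp [mul_apply, Fintype.sum_prod_type, hn]
      · simp [mul_apply, Fintype.sum_prod_type, h]) s
  rw [Fintype.card_fin] at this
  rw [← this]
  congr 3
  ext p q
  simp [Rm, mul_apply]

theorem det_C (hm : (m : ℝ) ≠ 0) (s : ℝ) : (1 + s • Cm m n).det = (1 + s) ^ n := by
  have := det_proj (Matrix.of fun (p : Fin m × Fin n) (j : Fin n) => if p.2 = j then (1 : ℝ) else 0)
    (Matrix.of fun (j : Fin n) (p : Fin m × Fin n) => if j = p.2 then (m : ℝ)⁻¹ else 0) (by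
      ext i i'
      by_cases h : i = i'
      · subst h; simp [mul_apply, Fintype.sum_prod_type, hm]
      · simp [mul_apply, Fintype.sum_prod_type, h]) s
  rw [Fintype.card_fin] at this
  rw [← this]
  congr 3
  ext p q
  simp [Cm, mul_apply]

theorem det_M (hm : (m : ℝ) ≠ 0) (hn : (n : ℝ) ≠ 0) (s : ℝ) : (1 + s • Mm m n).det = 1 + s := by
  have := det_proj (Matrix.of fun (_ : Fin m × Fin n) (_ : Unit) => (1 : ℝ))
    (Matrix.of fun (_ : Unit) (_ : Fin m × Fin n) => ((m : ℝ) * n)⁻¹) (by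
      ext i i'
      simp [mul_apply]
      field_simp) s
  rw [Fintype.card_unit, pow_one] at this
  rw [← this]
  congr 3
  ext p q
  simp [Mm, mul_apply]

theorem log_det_Vm (hm : 0 < (m : ℝ)) (hn : 0 < (n : ℝ)) {θ : Fin 3 → ℝ} (h : Pos θ) :
    Real.log (Vm m n θ).det = (m - 1) * (n - 1) * Real.log (θ 0)
      + (m - 1) * Real.log (θ 0 + n * θ 1) + (n - 1) * Real.log (θ 0 + m * θ 2)
      + Real.log (θ 0 + n * θ 1 + m * θ 2) := by
  have h0 := h 0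
  have h1 := h 1
  have h2 := h 2
  have e : Vm m n θ = θ 0 • ((1 + ((θ 0 + n * θ 1) / θ 0 - 1) • Rm m n) *
      ((1 + ((θ 0 + m * θ 2) / θ 0 - 1) • Cm m n) *
      (1 + ((θ 0 + n * θ 1 + m * θ 2) * θ 0 / ((θ 0 + n * θ 1) * (θ 0 + m * θ 2)) - 1) • Mm m n))) := by
    rw [Vm_eq hm.ne' hn.ne']
    simp only [Matrix.mul_add, Matrix.add_mul, Matrix.smul_mul, Matrix.mul_smul,
      Matrix.one_mul, Matrix.mul_one, RC, RM hn.ne', CM hm.ne']
    match_scalars <;> field_simp <;> ring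
  rw [e, det_smul, det_mul, det_mul, det_R hn.ne', det_C hm.ne', det_M hm.ne' hn.ne']
  simp only [add_sub_cancel, Fintype.card_prod, Fintype.card_fin]
  rw [Real.log_mul (by positivity) (by positivity), Real.log_mul (by positivity) (by positivity),
    Real.log_mul (by positivity) (by positivity), Real.log_pow, Real.log_pow, Real.log_pow,
    Real.log_div (by positivity) (by positivity), Real.log_div (by positivity) (by positivity),
    Real.log_div (by positivity) (by positivity), Real.log_mul (by positivity) (by positivity),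
    Real.log_mul (by positivity) (by positivity)]
  push_cast
  ring

theorem Wm_mulVec (θ : Fin 3 → ℝ) (y : Fin m × Fin n → ℝ) (p : Fin m × Fin n) :
    (Wm m n θ *ᵥ y) p = (θ 0)⁻¹ * (y p - rm y p.1 - cm y p.2 + ybar y)
      + (θ 0 + n * θ 1)⁻¹ * (rm y p.1 - ybar y) + (θ 0 + m * θ 2)⁻¹ * (cm y p.2 - ybar y)
      + (θ 0 + n * θ 1 + m * θ 2)⁻¹ * ybar y := by
  simp only [Wm, add_mulVec, sub_mulVec, smul_mulVec, one_mulVec, Pi.add_apply, Pi.sub_apply,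
    Pi.smul_apply, Rm_mulVec, Cm_mulVec, Mm_mulVec, smul_eq_mul]

theorem sum_row (hn : (n : ℝ) ≠ 0) (y : Fin m × Fin n → ℝ) (i : Fin m) :
    ∑ j, y (i, j) = n * rm y i := by
  rw [rm]; field_simp
theorem sum_col (hm : (m : ℝ) ≠ 0) (y : Fin m × Fin n → ℝ) (j : Fin n) :
    ∑ i, y (i, j) = m * cm y j := by
  rw [cm]; field_simp
theorem sum_all (hm : (m : ℝ) ≠ 0) (hn : (n : ℝ) ≠ 0) (y : Fin m × Fin n → ℝ) :
    ∑ p, y p = m * n * ybar y := by
  rw [ybar]; field_simp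
theorem sum_rm (hm : (m : ℝ) ≠ 0) (hn : (n : ℝ) ≠ 0) (y : Fin m × Fin n → ℝ) :
    ∑ i, rm y i = m * ybar y := by
  simp only [rm, ybar, ← Finset.sum_div, Fintype.sum_prod_type]; field_simp
theorem sum_cm (hm : (m : ℝ) ≠ 0) (hn : (n : ℝ) ≠ 0) (y : Fin m × Fin n → ℝ) :
    ∑ j, cm y j = n * ybar y := by
  simp only [cm, ybar, ← Finset.sum_div, Fintype.sum_prod_type_right]; field_simp

theorem sum_mul_row (hn : (n : ℝ) ≠ 0) (y : Fin m × Fin n → ℝ) (f : Fin m → ℝ) :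
    ∑ p, y p * f p.1 = n * ∑ i, rm y i * f i := by
  simp only [Fintype.sum_prod_type, ← Finset.sum_mul, sum_row hn, Finset.mul_sum, mul_assoc]
theorem sum_mul_col (hm : (m : ℝ) ≠ 0) (y : Fin m × Fin n → ℝ) (f : Fin n → ℝ) :
    ∑ p, y p * f p.2 = m * ∑ j, cm y j * f j := by
  simp only [Fintype.sum_prod_type_right, ← Finset.sum_mul, sum_col hm, Finset.mul_sum, mul_assoc]

def q0 (y : Fin m × Fin n → ℝ) : ℝ := ∑ p, y p * (y p - rm y p.1 - cm y p.2 + ybar y)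
def q1 (y : Fin m × Fin n → ℝ) : ℝ := n * ∑ i, rm y i ^ 2 - m * n * ybar y ^ 2
def q2 (y : Fin m × Fin n → ℝ) : ℝ := m * ∑ j, cm y j ^ 2 - m * n * ybar y ^ 2

theorem res_row (hm : (m : ℝ) ≠ 0) (hn : (n : ℝ) ≠ 0) (y : Fin m × Fin n → ℝ) (i : Fin m) :
    ∑ j, (y (i, j) - rm y i - cm y j + ybar y) = 0 := by
  simp [Finset.sum_add_distrib, Finset.sum_sub_distrib, sum_row hn, sum_cm hm hn]
theorem res_col (hm : (m : ℝ) ≠ 0) (hn : (n : ℝ) ≠ 0) (y : Fin m × Fin n → ℝ) (j : Fin n) :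
    ∑ i, (y (i, j) - rm y i - cm y j + ybar y) = 0 := by
  simp [Finset.sum_add_distrib, Finset.sum_sub_distrib, sum_col hm, sum_rm hm hn]

theorem one_W (hm : (m : ℝ) ≠ 0) (hn : (n : ℝ) ≠ 0) (θ : Fin 3 → ℝ) (y : Fin m × Fin n → ℝ) :
    1 ⬝ᵥ (Wm m n θ *ᵥ y) = (θ 0 + n * θ 1 + m * θ 2)⁻¹ * (m * n * ybar y) := by
  simp only [dotProduct, Pi.one_apply, one_mul, Wm_mulVec, Finset.sum_add_distrib,
    ← Finset.mul_sum, Fintype.sum_prod_type]
  simp [Finset.sum_sub_distrib, sum_cm hm hn, ← Finset.mul_sum, sum_rm hm hn, sum_row hn]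
  ring

theorem y_W (hm : (m : ℝ) ≠ 0) (hn : (n : ℝ) ≠ 0) (θ : Fin 3 → ℝ) (y : Fin m × Fin n → ℝ) :
    y ⬝ᵥ (Wm m n θ *ᵥ y) = (θ 0)⁻¹ * q0 y + (θ 0 + n * θ 1)⁻¹ * q1 y + (θ 0 + m * θ 2)⁻¹ * q2 y
      + (θ 0 + n * θ 1 + m * θ 2)⁻¹ * (m * n * ybar y ^ 2) := by
  have e1 : ∑ p, y p * (rm y p.1 - ybar y) = q1 y := by
    simp only [mul_sub, Finset.sum_sub_distrib, sum_mul_row hn y (rm y), ← Finset.sum_mul,
      sum_all hm hn y, q1, sq]
    ring
  have e2 : ∑ p, y p * (cm y p.2 - ybar y) = q2 y := by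
    simp only [mul_sub, Finset.sum_sub_distrib, sum_mul_col hm y (cm y), ← Finset.sum_mul,
      sum_all hm hn y, q2, sq]
    ring
  have e3 : ∑ p, y p * ybar y = m * n * ybar y ^ 2 := by
    rw [← Finset.sum_mul, sum_all hm hn]; ring
  rw [← e1, ← e2, ← e3, q0]
  simp only [dotProduct, Wm_mulVec, Finset.mul_sum, ← Finset.sum_add_distrib]
  exact Finset.sum_congr rfl fun p _ => by ring

theorem ybar_one (hm : (m : ℝ) ≠ 0) (hn : (n : ℝ) ≠ 0) : ybar (1 : Fin m × Fin n → ℝ) = 1 := by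
  have : ∑ p, (1 : Fin m × Fin n → ℝ) p = m * n := by simp
  rw [ybar, this]; exact div_self (mul_ne_zero hm hn)

theorem reml_eq (hm : 0 < (m : ℝ)) (hn : 0 < (n : ℝ)) {θ : Fin 3 → ℝ} (h : Pos θ)
    (y : Fin m × Fin n → ℝ) :
    reml y θ = -(1 / 2) * ((m - 1) * (n - 1) * Real.log (θ 0) + q0 y / θ 0)
      + -(1 / 2) * ((m - 1) * Real.log (θ 0 + n * θ 1) + q1 y / (θ 0 + n * θ 1))
      + -(1 / 2) * ((n - 1) * Real.log (θ 0 + m * θ 2) + q2 y / (θ 0 + m * θ 2))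
      + -(1 / 2) * Real.log (m * n) := by
  have h0 := h 0
  have h1 := h 1
  have h2 := h 2
  rw [reml, log_det_Vm hm hn h, Vm_inv hm hn h, one_W hm.ne' hn.ne', one_W hm.ne' hn.ne',
    y_W hm.ne' hn.ne', ybar_one hm.ne' hn.ne', mul_one,
    Real.log_mul (by positivity) (by positivity), Real.log_inv]
  field_simp
  ring

def S1 (a₁ : Fin m → ℝ) (y : Fin m × Fin n → ℝ) : ℝ := ∑ i, a₁ i * (rm y i - ybar y)
def S2 (a₂ : Fin n → ℝ) (y : Fin m × Fin n → ℝ) : ℝ := ∑ j, a₂ j * (cm y j - ybar y)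

theorem blup_eq (hm : 0 < (m : ℝ)) (hn : 0 < (n : ℝ)) {θ : Fin 3 → ℝ} (h : Pos θ)
    (a₀ : ℝ) (a₁ : Fin m → ℝ) (a₂ : Fin n → ℝ) (y : Fin m × Fin n → ℝ) :
    blup a₀ a₁ a₂ y θ = a₀ * ybar y + (1 - θ 0 / (θ 0 + n * θ 1)) * S1 a₁ y
      + (1 - θ 0 / (θ 0 + m * θ 2)) * S2 a₂ y := by
  have h0 := h 0
  have h1 := h 1
  have h2 := h 2
  set r : Fin m × Fin n → ℝ := fun p => y p - ybar y with hr
  have r1 : ∀ i, rm r i = rm y i - ybar y := by
    intro i; simp only [rm, hr, Finset.sum_sub_distrib]; simp; field_simp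
  have r2 : ∀ j, cm r j = cm y j - ybar y := by
    intro j; simp only [cm, hr, Finset.sum_sub_distrib]; simp; field_simp
  have r3 : ybar r = 0 := by
    rw [ybar]; simp only [hr, Finset.sum_sub_distrib, sum_all hm.ne' hn.ne' y]; simp
  have w1 : ∀ i, ∑ j, (Wm m n θ *ᵥ r) (i, j) = n * ((θ 0 + n * θ 1)⁻¹ * (rm y i - ybar y)) := by
    intro i
    simp only [Wm_mulVec, Finset.sum_add_distrib, ← Finset.mul_sum, res_row hm.ne' hn.ne']
    simp [r3, r1, sum_cm hm.ne' hn.ne' r]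
    ring
  have w2 : ∀ j, ∑ i, (Wm m n θ *ᵥ r) (i, j) = m * ((θ 0 + m * θ 2)⁻¹ * (cm y j - ybar y)) := by
    intro j
    simp only [Wm_mulVec, Finset.sum_add_distrib, ← Finset.mul_sum, res_col hm.ne' hn.ne']
    simp [r3, r2, sum_rm hm.ne' hn.ne' r]
    ring
  rw [blup, Vm_inv hm hn h, ← hr, ← mulVec_mulVec, ← mulVec_mulVec, add_assoc]
  congr 1
  generalize Wm m n θ *ᵥ r = w at w1 w2
  simp only [dotProduct, Fintype.sum_sum_type, Sum.elim_inl, Sum.elim_inr, Gm, mulVec_diagonal]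
  simp only [mulVec, dotProduct, transpose_apply, Zm, of_apply, Sum.elim_inl, Sum.elim_inr]
  congr 1
  · have : ∀ i : Fin m, ∑ p : Fin m × Fin n, (if p.1 = i then (1 : ℝ) else 0) * w p =
        ∑ j, w (i, j) := fun i => by simp [Fintype.sum_prod_type_right]
    simp only [this, w1, S1, Finset.mul_sum]
    exact Finset.sum_congr rfl fun i _ => by field_simp; ring
  · have : ∀ j : Fin n, ∑ p : Fin m × Fin n, (if p.2 = j then (1 : ℝ) else 0) * w p =
        ∑ i, w (i, j) := fun i => by simp [Fintype.sum_prod_type]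
    simp only [this, w2, S2, Finset.mul_sum]
    exact Finset.sum_congr rfl fun i _ => by field_simp; ring

end

end Pool.Agent.MP_ca614b_pr.H61
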