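import Mathlib

/-!
A small calculus of L^n bounds and moment inequalities for sums of independent variables.
-/

set_option autoImplicit false

open MeasureTheory ProbabilityTheory
open scoped ENNReal

namespace Pool.Agent.MP_ca614b_pr.H61

variable {Ω : Type} [MeasurableSpace Ω] {P : Measure Ω}

def Bd (P : Measure Ω) (n : ℕ) (X : Ω → ℝ) (c : ℝ) : Prop :=
  MemLp X n P ∧ lpNorm X n P ≤ c

theorem Bd.nonneg {n : ℕ} {X : Ω → ℝ} {c : ℝ} (h : Bd P n X c) : 0 ≤ c :=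
  lpNorm_nonneg.trans h.2

theorem Bd.mono {n : ℕ} {X : Ω → ℝ} {c d : ℝ} (h : Bd P n X c) (hcd : c ≤ d) : Bd P n X d :=
  ⟨h.1, h.2.trans hcd⟩

theorem Bd.congr {n : ℕ} {X Y : Ω → ℝ} {c : ℝ} (h : Bd P n X c) (e : ∀ ω, X ω = Y ω) :
    Bd P n Y c := by
  have : X = Y := funext e
  exact this ▸ h

theorem Bd.add {n : ℕ} (hn : 1 ≤ n) {X Y : Ω → ℝ} {a b : ℝ} (hX : Bd P n X a) (hY : Bd P n Y b) :
    Bd P n (fun ω => X ω + Y ω) (a + b) :=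
  ⟨hX.1.add hY.1, (lpNorm_add_le (g := Y) hX.1 (by exact_mod_cast hn)).trans (add_le_add hX.2 hY.2)⟩

theorem Bd.sub {n : ℕ} (hn : 1 ≤ n) {X Y : Ω → ℝ} {a b : ℝ} (hX : Bd P n X a) (hY : Bd P n Y b) :
    Bd P n (fun ω => X ω - Y ω) (a + b) :=
  ⟨hX.1.sub hY.1, (lpNorm_sub_le (g := Y) hX.1 (by exact_mod_cast hn)).trans (add_le_add hX.2 hY.2)⟩

theorem Bd.const_mul {n : ℕ} {X : Ω → ℝ} {a : ℝ} (hX : Bd P n X a) (k : ℝ) :
    Bd P n (fun ω => k * X ω) (|k| * a) := by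
  refine ⟨hX.1.const_mul k, ?_⟩
  have := lpNorm_const_smul (p := n) k X P
  simp only [coe_nnnorm, Real.norm_eq_abs] at this
  exact this.le.trans (mul_le_mul_of_nonneg_left hX.2 (abs_nonneg k))

theorem bd_const [IsProbabilityMeasure P] {n : ℕ} (hn : 1 ≤ n) (k : ℝ) :
    Bd P n (fun _ => k) |k| := by
  refine ⟨memLp_const k, ?_⟩
  rw [lpNorm_const' (by simp; omega) (by simp)]
  simp

theorem Bd.mul {n : ℕ} (hn : 1 ≤ n) {X Y : Ω → ℝ} {a b : ℝ} (hX : Bd P (2 * n) X a)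
    (hY : Bd P (2 * n) Y b) : Bd P n (fun ω => X ω * Y ω) (a * b) := by
  have : ENNReal.HolderTriple ((2 * n : ℕ) : ℝ≥0∞) ((2 * n : ℕ) : ℝ≥0∞) (n : ℝ≥0∞) := by
    constructor
    have h0 : (n : ℝ≥0∞) ≠ 0 := by simp; omega
    rw [Nat.cast_mul, ENNReal.mul_inv (by simp) (by simp), ← add_mul, Nat.cast_ofNat,
      ENNReal.inv_two_add_inv_two, one_mul]
  have hm : MemLp (fun ω => X ω * Y ω) n P := MemLp.mul' hY.1 hX.1
  refine ⟨hm, ?_⟩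
  have h := eLpNorm_smul_le_mul_eLpNorm (p := ((2 * n : ℕ) : ℝ≥0∞)) (q := ((2 * n : ℕ) : ℝ≥0∞))
    (r := (n : ℝ≥0∞)) hY.1.1 hX.1.1
  have h2 := ENNReal.toReal_mono (ENNReal.mul_ne_top hX.1.2.ne hY.1.2.ne) h
  rw [ENNReal.toReal_mul, toReal_eLpNorm hX.1.1, toReal_eLpNorm hY.1.1] at h2
  rw [← toReal_eLpNorm hm.1]
  exact h2.trans (mul_le_mul hX.2 hY.2 lpNorm_nonneg hX.nonneg)

theorem Bd.mul8 {X Y : Ω → ℝ} {a b : ℝ} (hX : Bd P 8 X a) (hY : Bd P 8 Y b) :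
    Bd P 4 (fun ω => X ω * Y ω) (a * b) := Bd.mul (n := 4) (by norm_num) hX hY

theorem Bd.mul4 {X Y : Ω → ℝ} {a b : ℝ} (hX : Bd P 4 X a) (hY : Bd P 4 Y b) :
    Bd P 2 (fun ω => X ω * Y ω) (a * b) := Bd.mul (n := 2) (by norm_num) hX hY

theorem Bd.mul2 {X Y : Ω → ℝ} {a b : ℝ} (hX : Bd P 2 X a) (hY : Bd P 2 Y b) :
    Bd P 1 (fun ω => X ω * Y ω) (a * b) := Bd.mul (n := 1) (by norm_num) hX hY

theorem Bd.down [IsProbabilityMeasure P] {n k : ℕ} {X : Ω → ℝ} {a : ℝ} (hX : Bd P n X a)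
    (hk : k ≤ n) : Bd P k X a := by
  have hk' : (k : ℝ≥0∞) ≤ n := by exact_mod_cast hk
  refine ⟨hX.1.mono_exponent hk', le_trans ?_ hX.2⟩
  rw [← toReal_eLpNorm hX.1.1, ← toReal_eLpNorm hX.1.1]
  exact ENNReal.toReal_mono hX.1.2.ne (eLpNorm_le_eLpNorm_of_exponent_le hk' hX.1.1)

theorem Bd.integrable {X : Ω → ℝ} {a : ℝ} (hX : Bd P 1 X a) : Integrable X P :=
  memLp_one_iff_integrable.1 (by simpa using hX.1)

theorem Bd.abs_integral {X : Ω → ℝ} {a : ℝ} (hX : Bd P 1 X a) : |∫ ω, X ω ∂P| ≤ a := by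
  have h := hX.2
  rw [Nat.cast_one, lpNorm_one_eq_integral_norm hX.1.1] at h
  exact (norm_integral_le_integral_norm X).trans h

theorem lpNorm_pow {n : ℕ} (hn : n ≠ 0) (he : Even n) {X : Ω → ℝ}
    (hX : AEStronglyMeasurable X P) : lpNorm X n P ^ n = ∫ ω, X ω ^ n ∂P := by
  rw [lpNorm_eq_integral_norm_rpow_toReal (by simpa using hn) (by simp) hX]
  simp only [ENNReal.toReal_natCast, Real.rpow_natCast, Real.norm_eq_abs, he.pow_abs]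
  exact Real.rpow_inv_natCast_pow (integral_nonneg fun ω => he.pow_nonneg _) hn

theorem bd_of_moment {n : ℕ} (hn : n ≠ 0) (he : Even n) {X : Ω → ℝ} {c : ℝ} (hX : MemLp X n P)
    (hc : 0 ≤ c) (h : ∫ ω, X ω ^ n ∂P ≤ c ^ n) : Bd P n X c := by
  refine ⟨hX, ?_⟩
  rw [← lpNorm_pow hn he hX.1] at h
  exact (pow_le_pow_iff_left₀ lpNorm_nonneg hc hn).1 h

theorem Bd.moment {n : ℕ} (hn : n ≠ 0) (he : Even n) {X : Ω → ℝ} {c : ℝ} (h : Bd P n X c) :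
    ∫ ω, X ω ^ n ∂P ≤ c ^ n := by
  rw [← lpNorm_pow hn he h.1.1]
  exact pow_le_pow_left₀ lpNorm_nonneg h.2 n

theorem integrable_pow [IsProbabilityMeasure P] {n k : ℕ} {X : Ω → ℝ} (hX : MemLp X n P)
    (hk : k ≤ n) : Integrable (fun ω => X ω ^ k) P := by
  have hk' : (k : ℝ≥0∞) ≤ n := by exact_mod_cast hk
  have h := (hX.mono_exponent hk').integrable_norm_pow'
  refine (integrable_norm_iff (hX.1.pow k)).1 ?_
  simpa using h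

def Ex (P : Measure Ω) (X : Ω → ℝ) (v : ℝ) : Prop := Integrable X P ∧ ∫ ω, X ω ∂P = v

theorem ex_self {X : Ω → ℝ} (h : Integrable X P) : Ex P X (∫ ω, X ω ∂P) := ⟨h, rfl⟩

theorem Ex.add {X Y : Ω → ℝ} {v w : ℝ} (hX : Ex P X v) (hY : Ex P Y w) :
    Ex P (fun ω => X ω + Y ω) (v + w) :=
  ⟨hX.1.add hY.1, by rw [integral_add hX.1 hY.1, hX.2, hY.2]⟩

theorem Ex.sub {X Y : Ω → ℝ} {v w : ℝ} (hX : Ex P X v) (hY : Ex P Y w) :
    Ex P (fun ω => X ω - Y ω) (v - w) :=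
  ⟨hX.1.sub hY.1, by rw [integral_sub hX.1 hY.1, hX.2, hY.2]⟩

theorem Ex.const_mul {X : Ω → ℝ} {v : ℝ} (hX : Ex P X v) (k : ℝ) :
    Ex P (fun ω => k * X ω) (k * v) :=
  ⟨hX.1.const_mul k, by rw [integral_const_mul, hX.2]⟩

theorem Ex.congr {X Y : Ω → ℝ} {v w : ℝ} (hX : Ex P X v) (e : ∀ ω, X ω = Y ω) (e' : v = w) :
    Ex P Y w := by
  have : X = Y := funext e
  exact this ▸ e' ▸ hX

theorem ex_const [IsProbabilityMeasure P] (k : ℝ) : Ex P (fun _ => k) k :=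
  ⟨integrable_const k, by simp⟩

theorem ex_sum {κ : Type} (s : Finset κ) {X : κ → Ω → ℝ} {v : κ → ℝ}
    (h : ∀ i ∈ s, Ex P (X i) (v i)) : Ex P (fun ω => ∑ i ∈ s, X i ω) (∑ i ∈ s, v i) :=
  ⟨integrable_finsetSum s fun i hi => (h i hi).1, by
    rw [integral_finsetSum s fun i hi => (h i hi).1]
    exact Finset.sum_congr rfl fun i hi => (h i hi).2⟩

theorem Ex.le {X Y : Ω → ℝ} {v w : ℝ} (hX : Ex P X v) (hY : Ex P Y w) (h : ∀ ω, X ω ≤ Y ω) :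
    v ≤ w := by
  rw [← hX.2, ← hY.2]
  exact integral_mono hX.1 hY.1 h

theorem Ex.indep {X Y : Ω → ℝ} {v w : ℝ} (hX : Ex P X v) (hY : Ex P Y w) (h : IndepFun X Y P) :
    Ex P (fun ω => X ω * Y ω) (v * w) :=
  ⟨h.integrable_mul hX.1 hY.1, by
    rw [h.integral_fun_mul_eq_mul_integral hX.1.1 hY.1.1, ← hX.2, ← hY.2]⟩

theorem ex_pow [IsProbabilityMeasure P] {n k : ℕ} {X : Ω → ℝ} (hX : MemLp X n P)
    (hk : k ≤ n) : Ex P (fun ω => X ω ^ k) (∫ ω, X ω ^ k ∂P) := ex_self (integrable_pow hX hk)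

theorem indep_pow [IsProbabilityMeasure P] {n : ℕ} {X Y : Ω → ℝ} (h : IndepFun X Y P)
    (hX : MemLp X n P) (hY : MemLp Y n P) {a b : ℕ} (ha : a ≤ n) (hb : b ≤ n) :
    Ex P (fun ω => X ω ^ a * Y ω ^ b) ((∫ ω, X ω ^ a ∂P) * ∫ ω, Y ω ^ b ∂P) :=
  (ex_pow hX ha).indep (ex_pow hY hb)
    (h.comp (measurable_id.pow_const a) (measurable_id.pow_const b))

theorem pw4 (x y : ℝ) :
    (x + y) ^ 4 ≤ x ^ 4 + 4 * (x ^ 3 * y ^ 1) + 8 * (x ^ 2 * y ^ 2) + 3 * y ^ 4 := by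
  nlinarith [sq_nonneg (x * y - y ^ 2)]

theorem pw6 (x y : ℝ) :
    (x + y) ^ 6 ≤ x ^ 6 + 6 * (x ^ 5 * y ^ 1) + 25 * (x ^ 4 * y ^ 2) + 28 * (x ^ 2 * y ^ 4)
      + 4 * y ^ 6 := by
  nlinarith [sq_nonneg (x ^ 2 * y - x * y ^ 2), sq_nonneg (x * y ^ 2 - y ^ 3)]

theorem pw8 (x y : ℝ) :
    (x + y) ^ 8 ≤ x ^ 8 + 8 * (x ^ 7 * y ^ 1) + 56 * (x ^ 6 * y ^ 2) + 126 * (x ^ 4 * y ^ 4)
      + 60 * (x ^ 2 * y ^ 6) + 5 * y ^ 8 := by
  nlinarith [sq_nonneg (x ^ 3 * y - x ^ 2 * y ^ 2), sq_nonneg (x ^ 2 * y ^ 2 - x * y ^ 3),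
    sq_nonneg (x * y ^ 3 - y ^ 4)]

theorem step2 [IsProbabilityMeasure P] {X Y : Ω → ℝ} (h : IndepFun X Y P) {n : ℕ} (hn : 2 ≤ n)
    (hX : MemLp X n P) (hY : MemLp Y n P) (h0 : ∫ ω, Y ω ∂P = 0) :
    ∫ ω, (X ω + Y ω) ^ 2 ∂P = ∫ ω, X ω ^ 2 ∂P + ∫ ω, Y ω ^ 2 ∂P := by
  have a := indep_pow h hX hY (a := 1) (b := 1) (by omega) (by omega)
  refine ((((ex_pow hX hn).add (a.const_mul 2)).add (ex_pow hY hn)).congr (fun ω => ?_) ?_).2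
  · ring
  · simp [h0]

theorem step4 [IsProbabilityMeasure P] {X Y : Ω → ℝ} (h : IndepFun X Y P) {n : ℕ} (hn : 4 ≤ n)
    (hX : MemLp X n P) (hY : MemLp Y n P) (h0 : ∫ ω, Y ω ∂P = 0) :
    ∫ ω, (X ω + Y ω) ^ 4 ∂P ≤ ∫ ω, X ω ^ 4 ∂P + 8 * ((∫ ω, X ω ^ 2 ∂P) * ∫ ω, Y ω ^ 2 ∂P)
      + 3 * ∫ ω, Y ω ^ 4 ∂P := by
  have a := indep_pow h hX hY (a := 3) (b := 1) (by omega) (by omega)
  have b := indep_pow h hX hY (a := 2) (b := 2) (by omega) (by omega)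
  refine ((ex_pow (hX.add hY) hn).le ((((ex_pow hX hn).add (a.const_mul 4)).add
    (b.const_mul 8)).add ((ex_pow hY hn).const_mul 3)) fun ω => pw4 (X ω) (Y ω)).trans ?_
  simp [h0]

theorem step6 [IsProbabilityMeasure P] {X Y : Ω → ℝ} (h : IndepFun X Y P) {n : ℕ} (hn : 6 ≤ n)
    (hX : MemLp X n P) (hY : MemLp Y n P) (h0 : ∫ ω, Y ω ∂P = 0) :
    ∫ ω, (X ω + Y ω) ^ 6 ∂P ≤ ∫ ω, X ω ^ 6 ∂P + 25 * ((∫ ω, X ω ^ 4 ∂P) * ∫ ω, Y ω ^ 2 ∂P)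
      + 28 * ((∫ ω, X ω ^ 2 ∂P) * ∫ ω, Y ω ^ 4 ∂P) + 4 * ∫ ω, Y ω ^ 6 ∂P := by
  have a := indep_pow h hX hY (a := 5) (b := 1) (by omega) (by omega)
  have b := indep_pow h hX hY (a := 4) (b := 2) (by omega) (by omega)
  have c := indep_pow h hX hY (a := 2) (b := 4) (by omega) (by omega)
  refine ((ex_pow (hX.add hY) hn).le (((((ex_pow hX hn).add (a.const_mul 6)).add
    (b.const_mul 25)).add (c.const_mul 28)).add ((ex_pow hY hn).const_mul 4))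
    fun ω => pw6 (X ω) (Y ω)).trans ?_
  simp [h0]

theorem step8 [IsProbabilityMeasure P] {X Y : Ω → ℝ} (h : IndepFun X Y P) {n : ℕ} (hn : 8 ≤ n)
    (hX : MemLp X n P) (hY : MemLp Y n P) (h0 : ∫ ω, Y ω ∂P = 0) :
    ∫ ω, (X ω + Y ω) ^ 8 ∂P ≤ ∫ ω, X ω ^ 8 ∂P + 56 * ((∫ ω, X ω ^ 6 ∂P) * ∫ ω, Y ω ^ 2 ∂P)
      + 126 * ((∫ ω, X ω ^ 4 ∂P) * ∫ ω, Y ω ^ 4 ∂P)
      + 60 * ((∫ ω, X ω ^ 2 ∂P) * ∫ ω, Y ω ^ 6 ∂P) + 5 * ∫ ω, Y ω ^ 8 ∂P := by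
  have a := indep_pow h hX hY (a := 7) (b := 1) (by omega) (by omega)
  have b := indep_pow h hX hY (a := 6) (b := 2) (by omega) (by omega)
  have c := indep_pow h hX hY (a := 4) (b := 4) (by omega) (by omega)
  have d := indep_pow h hX hY (a := 2) (b := 6) (by omega) (by omega)
  refine ((ex_pow (hX.add hY) hn).le ((((((ex_pow hX hn).add (a.const_mul 8)).add
    (b.const_mul 56)).add (c.const_mul 126)).add (d.const_mul 60)).add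
    ((ex_pow hY hn).const_mul 5)) fun ω => pw8 (X ω) (Y ω)).trans ?_
  simp [h0]

theorem mom_nonneg (X : Ω → ℝ) {k : ℕ} (hk : Even k) : 0 ≤ ∫ ω, X ω ^ k ∂P :=
  integral_nonneg fun _ => hk.pow_nonneg _

theorem sum4 [IsProbabilityMeasure P] {κ : Type} [DecidableEq κ] (Y : κ → Ω → ℝ) (b : κ → ℝ)
    (hind : ∀ (s : Finset κ) (i : κ), i ∉ s → IndepFun (fun ω => ∑ j ∈ s, Y j ω) (Y i) P)
    (h0 : ∀ i, ∫ ω, Y i ω ∂P = 0) (hb : ∀ i, Bd P 4 (Y i) (b i)) (s : Finset κ) :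
    Bd P 4 (fun ω => ∑ j ∈ s, Y j ω) (2 * √(∑ j ∈ s, b j ^ 2)) := by
  have hm : ∀ s : Finset κ, MemLp (fun ω => ∑ j ∈ s, Y j ω) (4 : ℕ) P :=
    fun s => memLp_finsetSum s fun i _ => (hb i).1
  have key : ∫ ω, (∑ j ∈ s, Y j ω) ^ 2 ∂P ≤ ∑ j ∈ s, b j ^ 2 ∧
      ∫ ω, (∑ j ∈ s, Y j ω) ^ 4 ∂P ≤ (4 * ∑ j ∈ s, b j ^ 2) ^ 2 := by
    induction s using Finset.induction_on with
    | empty => simp
    | insert i s hi ih =>
      simp only [Finset.sum_insert hi, add_comm (Y i _), add_comm (b i ^ 2)]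
      have y2 := ((hb i).down (k := 2) (by norm_num)).moment (by norm_num) (by decide)
      have y4 := (hb i).moment (by norm_num) (by decide)
      have s2 := step2 (hind s i hi) (by norm_num) (hm s) (hb i).1 (h0 i)
      have s4 := step4 (hind s i hi) le_rfl (hm s) (hb i).1 (h0 i)
      have t0 : 0 ≤ ∑ j ∈ s, b j ^ 2 := Finset.sum_nonneg fun _ _ => sq_nonneg _
      have p22 := mul_le_mul ih.1 y2 (mom_nonneg _ (by decide)) t0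
      have c0 : 0 ≤ b i ^ 2 := sq_nonneg _
      have e4 : b i ^ 4 = (b i ^ 2) ^ 2 := by ring
      rw [e4] at y4
      generalize b i ^ 2 = c at *
      generalize ∑ j ∈ s, b j ^ 2 = t at *
      constructor
      · linarith [ih.1]
      · nlinarith [ih.2, mul_nonneg t0 c0, sq_nonneg c]
  have t0 : 0 ≤ ∑ j ∈ s, b j ^ 2 := Finset.sum_nonneg fun _ _ => sq_nonneg _
  refine bd_of_moment (by norm_num) (by decide) (hm s) (by positivity) (key.2.trans (le_of_eq ?_))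
  have := Real.sq_sqrt t0
  calc (4 * ∑ j ∈ s, b j ^ 2) ^ 2 = (4 * √(∑ j ∈ s, b j ^ 2) ^ 2) ^ 2 := by rw [this]
    _ = _ := by ring

theorem sum8 [IsProbabilityMeasure P] {κ : Type} [DecidableEq κ] (Y : κ → Ω → ℝ) (b : κ → ℝ)
    (hind : ∀ (s : Finset κ) (i : κ), i ∉ s → IndepFun (fun ω => ∑ j ∈ s, Y j ω) (Y i) P)
    (h0 : ∀ i, ∫ ω, Y i ω ∂P = 0) (hb : ∀ i, Bd P 8 (Y i) (b i)) (s : Finset κ) :
    Bd P 8 (fun ω => ∑ j ∈ s, Y j ω) (4 * √(∑ j ∈ s, b j ^ 2)) := by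
  have hm : ∀ s : Finset κ, MemLp (fun ω => ∑ j ∈ s, Y j ω) (8 : ℕ) P :=
    fun s => memLp_finsetSum s fun i _ => (hb i).1
  have key : ∫ ω, (∑ j ∈ s, Y j ω) ^ 2 ∂P ≤ (16 * ∑ j ∈ s, b j ^ 2) ∧
      ∫ ω, (∑ j ∈ s, Y j ω) ^ 4 ∂P ≤ (16 * ∑ j ∈ s, b j ^ 2) ^ 2 ∧
      ∫ ω, (∑ j ∈ s, Y j ω) ^ 6 ∂P ≤ (16 * ∑ j ∈ s, b j ^ 2) ^ 3 ∧
      ∫ ω, (∑ j ∈ s, Y j ω) ^ 8 ∂P ≤ (16 * ∑ j ∈ s, b j ^ 2) ^ 4 := by
    induction s using Finset.induction_on with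
    | empty => simp
    | insert i s hi ih =>
      simp only [Finset.sum_insert hi, add_comm (Y i _), add_comm (b i ^ 2)]
      have y2 := ((hb i).down (k := 2) (by norm_num)).moment (by norm_num) (by decide)
      have y4 := ((hb i).down (k := 4) (by norm_num)).moment (by norm_num) (by decide)
      have y6 := ((hb i).down (k := 6) (by norm_num)).moment (by norm_num) (by decide)
      have y8 := (hb i).moment (by norm_num) (by decide)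
      have s2 := step2 (hind s i hi) (by norm_num) (hm s) (hb i).1 (h0 i)
      have s4 := step4 (hind s i hi) (by norm_num) (hm s) (hb i).1 (h0 i)
      have s6 := step6 (hind s i hi) (by norm_num) (hm s) (hb i).1 (h0 i)
      have s8 := step8 (hind s i hi) le_rfl (hm s) (hb i).1 (h0 i)
      have t0 : 0 ≤ ∑ j ∈ s, b j ^ 2 := Finset.sum_nonneg fun _ _ => sq_nonneg _
      obtain ⟨i2, i4, i6, i8⟩ := ih
      have c0 : 0 ≤ b i ^ 2 := sq_nonneg _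
      have e4 : b i ^ 4 = (b i ^ 2) ^ 2 := by ring
      have e6 : b i ^ 6 = (b i ^ 2) ^ 3 := by ring
      have e8 : b i ^ 8 = (b i ^ 2) ^ 4 := by ring
      rw [e4] at y4
      rw [e6] at y6
      rw [e8] at y8
      have p22 := mul_le_mul i2 y2 (mom_nonneg _ (by decide)) (by positivity)
      have p42 := mul_le_mul i4 y2 (mom_nonneg _ (by decide)) (by positivity)
      have p24 := mul_le_mul i2 y4 (mom_nonneg _ (by decide)) (by positivity)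
      have p62 := mul_le_mul i6 y2 (mom_nonneg _ (by decide)) (by positivity)
      have p44 := mul_le_mul i4 y4 (mom_nonneg _ (by decide)) (by positivity)
      have p26 := mul_le_mul i2 y6 (mom_nonneg _ (by decide)) (by positivity)
      rw [mul_add]
      have u0 : 0 ≤ 16 * ∑ j ∈ s, b j ^ 2 := by positivity
      generalize b i ^ 2 = c at *
      generalize 16 * ∑ j ∈ s, b j ^ 2 = t at *
      refine ⟨by linarith, ?_, ?_, ?_⟩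
      · have : 0 ≤ t * c ∧ 0 ≤ c ^ 2 := ⟨by positivity, by positivity⟩
        nlinarith [this.1, this.2]
      · have : 0 ≤ t ^ 2 * c ∧ 0 ≤ t * c ^ 2 ∧ 0 ≤ c ^ 3 :=
          ⟨by positivity, by positivity, by positivity⟩
        nlinarith [this.1, this.2.1, this.2.2]
      · have : 0 ≤ t ^ 3 * c ∧ 0 ≤ t ^ 2 * c ^ 2 ∧ 0 ≤ t * c ^ 3 ∧ 0 ≤ c ^ 4 :=
          ⟨by positivity, by positivity, by positivity, by positivity⟩
        nlinarith [this.1, this.2.1, this.2.2.1, this.2.2.2]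
  have t0 : 0 ≤ ∑ j ∈ s, b j ^ 2 := Finset.sum_nonneg fun _ _ => sq_nonneg _
  refine bd_of_moment (by norm_num) (by decide) (hm s) (by positivity)
    (key.2.2.2.trans (le_of_eq ?_))
  have := Real.sq_sqrt t0
  calc (16 * ∑ j ∈ s, b j ^ 2) ^ 4 = (16 * √(∑ j ∈ s, b j ^ 2) ^ 2) ^ 4 := by rw [this]
    _ = _ := by ring

end Pool.Agent.MP_ca614b_pr.H61
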