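import Pool.Agent.MP_ca614b_pr.H61.Bd

/-!
Independence of functions of disjoint blocks of coordinates, and moment bounds for their sums.
-/

set_option autoImplicit false
set_option linter.unusedSectionVars false

open MeasureTheory ProbabilityTheory
open scoped ENNReal

namespace Pool.Agent.MP_ca614b_pr.H61

variable {ι : Type} [Fintype ι] {ν : ι → Measure ℝ} [∀ k, IsProbabilityMeasure (ν k)]

theorem indep_dep {S T : Finset ι} (hST : Disjoint S T) {β γ : Type} [MeasurableSpace β]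
    [MeasurableSpace γ] {f : (ι → ℝ) → β} {g : (ι → ℝ) → γ} (hf : Measurable f)
    (hg : Measurable g) (df : DependsOn f S) (dg : DependsOn g T) :
    IndepFun f g (Measure.pi ν) := by
  classical
  have h0 : iIndepFun (fun i (ω : ι → ℝ) => ω i) (Measure.pi ν) :=
    iIndepFun_pi (X := fun _ => id) fun _ => aemeasurable_id
  have h1 := h0.indepFun_finset S T hST fun i => measurable_pi_apply i
  have mS : ∀ S : Finset ι, Measurable fun (x : S → ℝ) (i : ι) =>
      if h : i ∈ S then x ⟨i, h⟩ else 0 := by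
    intro S
    refine measurable_pi_lambda _ fun i => ?_
    by_cases h : i ∈ S
    · simp only [h, dif_pos]; exact measurable_pi_apply _
    · simp only [h, dif_neg, not_false_eq_true]; exact measurable_const
  have h2 := h1.comp (hf.comp (mS S)) (hg.comp (mS T))
  convert h2 using 1
  · funext ω; exact df fun i hi => by simp [Finset.mem_coe.1 hi]
  · funext ω; exact dg fun i hi => by simp [Finset.mem_coe.1 hi]

theorem ex_coord (k : ι) {φ : ℝ → ℝ} {v : ℝ} (h : Ex (ν k) φ v) :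
    Ex (Measure.pi ν) (fun ω => φ (ω k)) v := by
  have mp := measurePreserving_eval ν k
  refine ⟨mp.integrable_comp_of_integrable h.1, ?_⟩
  rw [← h.2, ← mp.map_eq, integral_map mp.measurable.aemeasurable (by rw [mp.map_eq]; exact h.1.1)]

theorem bd_coord (k : ι) {p : ℕ} {φ : ℝ → ℝ} {b : ℝ} (h : Bd (ν k) p φ b) :
    Bd (Measure.pi ν) p (fun ω => φ (ω k)) b := by
  have mp := measurePreserving_eval ν k
  have hm : MemLp (fun ω : ι → ℝ => φ (ω k)) p (Measure.pi ν) := h.1.comp_measurePreserving mp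
  refine ⟨hm, le_trans (le_of_eq ?_) h.2⟩
  rw [← toReal_eLpNorm hm.1, ← toReal_eLpNorm h.1.1,
    ← eLpNorm_comp_measurePreserving h.1.1 mp]
  rfl

/-- a family of centred variables depending on disjoint blocks of coordinates -/
structure Blocks (ν : ι → Measure ℝ) {κ : Type} (Y : κ → (ι → ℝ) → ℝ) : Prop where
  meas : ∀ i, Measurable (Y i)
  dep : ∃ blk : κ → Finset ι, (∀ i j, i ≠ j → Disjoint (blk i) (blk j)) ∧
    ∀ i, DependsOn (Y i) (blk i)
  mean : ∀ i, ∫ ω, Y i ω ∂Measure.pi ν = 0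

theorem Blocks.indep {κ : Type} [DecidableEq κ] {Y : κ → (ι → ℝ) → ℝ} (h : Blocks ν Y)
    (s : Finset κ) (i : κ) (hi : i ∉ s) :
    IndepFun (fun ω => ∑ j ∈ s, Y j ω) (Y i) (Measure.pi ν) := by
  classical
  obtain ⟨blk, hd, hdep⟩ := h.dep
  refine indep_dep (S := s.biUnion blk) (T := blk i) ?_
    (Finset.measurable_fun_sum s fun j _ => h.meas j) (h.meas i) ?_ (hdep i)
  · rw [Finset.disjoint_biUnion_left]
    exact fun j hj => hd j i fun e => hi (e ▸ hj)
  · intro x y hxy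
    refine Finset.sum_congr rfl fun j hj => hdep j fun k hk => hxy k ?_
    exact Finset.mem_coe.2 (Finset.mem_biUnion.2 ⟨j, hj, Finset.mem_coe.1 hk⟩)

theorem Blocks.smul {κ : Type} {Y : κ → (ι → ℝ) → ℝ} (h : Blocks ν Y) (c : κ → ℝ) :
    Blocks ν fun i ω => c i * Y i ω := by
  obtain ⟨blk, hd, hdep⟩ := h.dep
  refine ⟨fun i => (h.meas i).const_mul _, ⟨blk, hd, fun i x y hxy => ?_⟩, fun i => ?_⟩
  · simp only [hdep i hxy]
  · rw [integral_const_mul, h.mean, mul_zero]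

theorem Blocks.bd8 {κ : Type} [Fintype κ] {Y : κ → (ι → ℝ) → ℝ} (h : Blocks ν Y) {b : ℝ}
    (hb0 : 0 ≤ b) (hb : ∀ i, Bd (Measure.pi ν) 8 (Y i) b) (c : κ → ℝ) :
    Bd (Measure.pi ν) 8 (fun ω => ∑ i, c i * Y i ω) (4 * b * √(∑ i, c i ^ 2)) := by
  classical
  refine (sum8 _ (fun i => |c i| * b) (h.smul c).indep (h.smul c).mean
    (fun i => (hb i).const_mul (c i)) Finset.univ).mono (le_of_eq ?_)
  simp only [mul_pow, sq_abs, ← Finset.sum_mul]
  rw [Real.sqrt_mul' _ (sq_nonneg b), Real.sqrt_sq hb0]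
  ring

theorem Blocks.bd4 {κ : Type} [Fintype κ] {Y : κ → (ι → ℝ) → ℝ} (h : Blocks ν Y) {b : ℝ}
    (hb0 : 0 ≤ b) (hb : ∀ i, Bd (Measure.pi ν) 4 (Y i) b) :
    Bd (Measure.pi ν) 4 (fun ω => ∑ i, Y i ω) (2 * b * √(Fintype.card κ)) := by
  classical
  refine (sum4 _ (fun _ => b) h.indep h.mean hb Finset.univ).mono (le_of_eq ?_)
  simp only [Finset.sum_const, Finset.card_univ, nsmul_eq_mul]
  rw [Real.sqrt_mul' _ (sq_nonneg b), Real.sqrt_sq hb0]
  ring

theorem Blocks.ex2 {κ : Type} [Fintype κ] {Y : κ → (ι → ℝ) → ℝ} (h : Blocks ν Y)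
    (hm : ∀ i, MemLp (Y i) (2 : ℕ) (Measure.pi ν)) {v : ℝ}
    (hv : ∀ i, ∫ ω, Y i ω ^ 2 ∂Measure.pi ν = v) (c : κ → ℝ) :
    Ex (Measure.pi ν) (fun ω => (∑ i, c i * Y i ω) ^ 2) ((∑ i, c i ^ 2) * v) := by
  classical
  have hm' : ∀ s : Finset κ, MemLp (fun ω => ∑ i ∈ s, c i * Y i ω) (2 : ℕ) (Measure.pi ν) :=
    fun s => memLp_finsetSum s fun i _ => (hm i).const_mul (c i)
  refine ⟨integrable_pow (hm' _) le_rfl, ?_⟩
  induction (Finset.univ : Finset κ) using Finset.induction_on with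
  | empty => simp
  | insert i s hi ih =>
    simp only [Finset.sum_insert hi, add_comm (c i * Y i _)]
    rw [step2 ((h.smul c).indep s i hi) le_rfl (hm' s) ((hm i).const_mul (c i))
      ((h.smul c).mean i), ih]
    simp only [mul_pow, integral_const_mul, hv]
    ring

theorem Blocks.ex1 {κ : Type} [Fintype κ] {Y : κ → (ι → ℝ) → ℝ} (h : Blocks ν Y)
    (hm : ∀ i, Integrable (Y i) (Measure.pi ν)) (c : κ → ℝ) :
    Ex (Measure.pi ν) (fun ω => ∑ i, c i * Y i ω) 0 :=
  (ex_sum Finset.univ fun i _ => Ex.const_mul ⟨hm i, h.mean i⟩ (c i)).congr (fun _ => rfl) (by simp)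

theorem blocks_coord {κ : Type} {r : κ → ι} (hr : Function.Injective r) {φ : ℝ → ℝ}
    (hφ : Measurable φ) (h0 : ∀ i, Ex (ν (r i)) φ 0) : Blocks ν fun i ω => φ (ω (r i)) :=
  ⟨fun i => hφ.comp (measurable_pi_apply _),
    ⟨fun i => {r i}, fun i j hij => Finset.disjoint_singleton.2 fun e => hij (hr e),
      fun i x y hxy => by simp only [hxy (r i) (by simp)]⟩, fun i => (ex_coord _ (h0 i)).2⟩

theorem exactUW {κ : Type} [DecidableEq κ] {r : κ → ι} (hr : Function.Injective r)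
    {F : Measure ℝ} [IsProbabilityMeasure F] (hF : ∀ i, ν (r i) = F) {B t τ c₃ η : ℝ}
    (hB : Bd F 8 (fun x => x) B) (h1 : Ex F (fun x => x) 0) (h2 : Ex F (fun x => x ^ 2) t)
    (hτ : Ex F (fun x => (x ^ 2 - t) ^ 2) τ) (h3 : Ex F (fun x => x * (x ^ 2 - t)) c₃)
    (hη : Ex F (fun x => x ^ 2 * (x ^ 2 - t) ^ 2) η) (a : κ → ℝ) (s : Finset κ) :
    Ex (Measure.pi ν) (fun ω => (∑ i ∈ s, a i * ω (r i)) * ∑ i ∈ s, (ω (r i) ^ 2 - t))
      (c₃ * ∑ i ∈ s, a i) ∧
    Ex (Measure.pi ν) (fun ω => (∑ i ∈ s, a i * ω (r i)) ^ 2 * (∑ i ∈ s, (ω (r i) ^ 2 - t)) ^ 2)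
      ((∑ i ∈ s, a i ^ 2) * (s.card - 1) * t * τ
        + 2 * c₃ ^ 2 * ((∑ i ∈ s, a i) ^ 2 - ∑ i ∈ s, a i ^ 2) + (∑ i ∈ s, a i ^ 2) * η) := by
  have hw : Bd F 4 (fun x => x ^ 2 - t) (B * B + |t|) :=
    ((hB.mul8 hB).congr fun x => (sq x).symm).sub (by norm_num) (bd_const (by norm_num) t)
  have hw0 : Ex F (fun x => x ^ 2 - t) 0 := (h2.sub (ex_const t)).congr (fun _ => rfl) (sub_self t)
  have i1 : Integrable (fun x : ℝ => x * (x ^ 2 - t) ^ 2) F :=
    ((((hB.down (k := 4) (by norm_num)).mul4 hw).mul2 (hw.down (by norm_num))).congr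
      fun x => by ring).integrable
  have i2 : Integrable (fun x : ℝ => x ^ 2 * (x ^ 2 - t)) F :=
    ((((hB.mul8 hB).mul4 hw).down (k := 1) (by norm_num)).congr fun x => by ring).integrable
  have cx : ∀ i {φ : ℝ → ℝ} {v : ℝ}, Ex F φ v → Ex (Measure.pi ν) (fun ω => φ (ω (r i))) v :=
    fun i φ v h => ex_coord (r i) (by rw [hF]; exact h)
  have cb : ∀ i {p : ℕ} {φ : ℝ → ℝ} {v : ℝ}, Bd F p φ v →
      Bd (Measure.pi ν) p (fun ω => φ (ω (r i))) v :=
    fun i p φ v h => bd_coord (r i) (by rw [hF]; exact h)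
  have mU : ∀ s : Finset κ, ∃ b, Bd (Measure.pi ν) 8 (fun ω => ∑ i ∈ s, a i * ω (r i)) b :=
    fun s => ⟨_, memLp_finsetSum s fun i _ => (cb i hB).1.const_mul (a i), le_rfl⟩
  have mW : ∀ s : Finset κ, ∃ b, Bd (Measure.pi ν) 4 (fun ω => ∑ i ∈ s, (ω (r i) ^ 2 - t)) b :=
    fun s => ⟨_, memLp_finsetSum s fun i _ => (cb i hw).1, le_rfl⟩
  suffices H : Ex (Measure.pi ν) (fun ω => (∑ i ∈ s, a i * ω (r i)) ^ 2) (t * ∑ i ∈ s, a i ^ 2) ∧
      Ex (Measure.pi ν) (fun ω => (∑ i ∈ s, (ω (r i) ^ 2 - t)) ^ 2) (τ * s.card) ∧ _ ∧ _ from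
    H.2.2
  induction s using Finset.induction_on with
  | empty => simpa using ex_const (P := Measure.pi ν) 0
  | insert i s hi ih =>
    obtain ⟨e1, e2, e3, e4⟩ := ih
    obtain ⟨bU, hU⟩ := mU s
    obtain ⟨bW, hW⟩ := mW s
    set U : (ι → ℝ) → ℝ := fun ω => ∑ j ∈ s, a j * ω (r j) with hUdef
    set W : (ι → ℝ) → ℝ := fun ω => ∑ j ∈ s, (ω (r j) ^ 2 - t) with hWdef
    have eU : Ex (Measure.pi ν) U 0 :=
      (ex_sum s fun j _ => (cx j h1).const_mul (a j)).congr (fun _ => rfl) (by simp)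
    have eW : Ex (Measure.pi ν) W 0 :=
      (ex_sum s fun j _ => cx j hw0).congr (fun _ => rfl) (by simp)
    have iUUW : Integrable (fun ω => U ω ^ 2 * W ω) (Measure.pi ν) :=
      ((((hU.mul8 hU).mul4 hW).down (k := 1) (by norm_num)).congr fun x => by ring).integrable
    have iUWW : Integrable (fun ω => U ω * W ω ^ 2) (Measure.pi ν) :=
      ((((hU.down (k := 4) (by norm_num)).mul4 hW).mul2 (hW.down (by norm_num))).congr
        fun x => by ring).integrable
    classical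
    have ind : IndepFun (fun ω => (U ω, W ω)) (fun ω : ι → ℝ => ω (r i)) (Measure.pi ν) := by
      refine indep_dep (S := s.image r) (T := {r i}) ?_ (by simp only [hUdef, hWdef]; fun_prop)
        (measurable_pi_apply _) ?_ fun x y hxy => hxy _ (by simp)
      · rw [Finset.disjoint_singleton_right, Finset.mem_image]
        rintro ⟨j, hj, e⟩
        exact hi (hr e ▸ hj)
      · intro x y hxy
        have : ∀ j ∈ s, x (r j) = y (r j) := fun j hj =>
          hxy _ (Finset.mem_coe.2 (Finset.mem_image_of_mem r hj))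
        simp only [hUdef, hWdef, Prod.mk.injEq]
        exact ⟨Finset.sum_congr rfl fun j hj => by rw [this j hj],
          Finset.sum_congr rfl fun j hj => by rw [this j hj]⟩
    have pr : ∀ (f : ℝ × ℝ → ℝ) (φ : ℝ → ℝ) {v w : ℝ}, Measurable f → Measurable φ →
        Ex (Measure.pi ν) (fun ω => f (U ω, W ω)) v → Ex F φ w →
        Ex (Measure.pi ν) (fun ω => f (U ω, W ω) * φ (ω (r i))) (v * w) :=
      fun f φ v w hf hφ hv hw => hv.indep (cx i hw) (ind.comp hf hφ)
    have p1 := pr (fun p => p.1) _ (by fun_prop) (by fun_prop) eU h1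
    have p2 := pr (fun p => p.2) _ (by fun_prop) (by fun_prop) eW hw0
    have p3 := pr (fun p => p.1) _ (by fun_prop) (by fun_prop) eU hw0
    have p4 := pr (fun p => p.2) _ (by fun_prop) (by fun_prop) eW h1
    have q1 := pr (fun p => p.1 ^ 2 * p.2) _ (by fun_prop) (by fun_prop) (ex_self iUUW) hw0
    have q2 := pr (fun p => p.1 ^ 2) _ (by fun_prop) (by fun_prop) e1 hτ
    have q3 := pr (fun p => p.1 * p.2 ^ 2) _ (by fun_prop) (by fun_prop) (ex_self iUWW) h1
    have q4 := pr (fun p => p.1 * p.2) _ (by fun_prop) (by fun_prop) e3 h3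
    have q5 := pr (fun p => p.1) _ (by fun_prop) (by fun_prop) eU (ex_self i1)
    have q6 := pr (fun p => p.2 ^ 2) _ (by fun_prop) (by fun_prop) e2 h2
    have q7 := pr (fun p => p.2) _ (by fun_prop) (by fun_prop) eW (ex_self i2)
    simp only [Finset.sum_insert hi, Finset.card_insert_of_notMem hi]
    refine ⟨?_, ?_, ?_, ?_⟩
    · refine ((e1.add (p1.const_mul (2 * a i))).add ((cx i h2).const_mul (a i ^ 2))).congr
        (fun ω => ?_) ?_
      · simp only [hUdef]; ring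
      · ring
    · refine ((e2.add (p2.const_mul 2)).add (cx i hτ)).congr (fun ω => ?_) ?_
      · simp only [hWdef]; ring
      · push_cast; ring
    · refine (((e3.add p3).add (p4.const_mul (a i))).add ((cx i h3).const_mul (a i))).congr
        (fun ω => ?_) ?_
      · simp only [hUdef, hWdef]; ring
      · ring
    · refine ((((((((e4.add (q1.const_mul 2)).add q2).add (q3.const_mul (2 * a i))).add
        (q4.const_mul (4 * a i))).add (q5.const_mul (2 * a i))).add (q6.const_mul (a i ^ 2))).add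
        (q7.const_mul (2 * a i ^ 2))).add ((cx i hη).const_mul (a i ^ 2))).congr (fun ω => ?_) ?_
      · simp only [hUdef, hWdef]; ring
      · push_cast; ring

end Pool.Agent.MP_ca614b_pr.H61
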