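import Mathlib

set_option autoImplicit false

open Matrix MeasureTheory

namespace Pool.Agent.MP_ca614b_pr.H61

noncomputable section

/-- the design matrix Z of the random effects -/
def Zm (m n : ℕ) : Matrix (Fin m × Fin n) (Fin m ⊕ Fin n) ℝ :=
  Matrix.of fun p => Sum.elim (fun i => if p.1 = i then 1 else 0) (fun j => if p.2 = j then 1 else 0)

/-- the covariance matrix G of the random effects -/
def Gm (m n : ℕ) (θ : Fin 3 → ℝ) : Matrix (Fin m ⊕ Fin n) (Fin m ⊕ Fin n) ℝ :=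
  Matrix.diagonal (Sum.elim (fun _ => θ 1) (fun _ => θ 2))

/-- the covariance matrix V of the data -/
def Vm (m n : ℕ) (θ : Fin 3 → ℝ) : Matrix (Fin m × Fin n) (Fin m × Fin n) ℝ :=
  θ 0 • (1 : Matrix (Fin m × Fin n) (Fin m × Fin n) ℝ) + Zm m n * Gm m n θ * (Zm m n)ᵀ

/-- the grand mean -/
def ybar {m n : ℕ} (y : Fin m × Fin n → ℝ) : ℝ := (∑ p, y p) / (m * n)

/-- the BLUP as a function of θ -/
def blup {m n : ℕ} (a₀ : ℝ) (a₁ : Fin m → ℝ) (a₂ : Fin n → ℝ) (y : Fin m × Fin n → ℝ)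
    (θ : Fin 3 → ℝ) : ℝ :=
  a₀ * ybar y +
    Sum.elim a₁ a₂ ⬝ᵥ ((Gm m n θ * (Zm m n)ᵀ * (Vm m n θ)⁻¹) *ᵥ fun p => y p - ybar y)

/-- the Gaussian restricted log-likelihood, without its additive constant -/
def reml {m n : ℕ} (y : Fin m × Fin n → ℝ) (θ : Fin 3 → ℝ) : ℝ :=
  -(1 / 2) * (Real.log (Vm m n θ).det + Real.log (1 ⬝ᵥ ((Vm m n θ)⁻¹ *ᵥ 1)) +
    (y ⬝ᵥ ((Vm m n θ)⁻¹ *ᵥ y) -
      (1 ⬝ᵥ ((Vm m n θ)⁻¹ *ᵥ y)) ^ 2 / (1 ⬝ᵥ ((Vm m n θ)⁻¹ *ᵥ 1))))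

/-- derivative in the k-th coordinate -/
def pd (f : (Fin 3 → ℝ) → ℝ) (k : Fin 3) (θ : Fin 3 → ℝ) : ℝ :=
  deriv (fun t => f (Function.update θ k t)) (θ k)

/-- joint law of (u, v, e): independent coordinates with laws F 1, F 2, F 0 -/
def law (m n : ℕ) (F : Fin 3 → Measure ℝ) : Measure (Fin m ⊕ Fin n ⊕ Fin m × Fin n → ℝ) :=
  Measure.pi (Sum.elim (fun _ => F 1) (Sum.elim (fun _ => F 2) (fun _ => F 0)))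

/-- the data y -/
def obs {m n : ℕ} (μ : ℝ) (ω : Fin m ⊕ Fin n ⊕ Fin m × Fin n → ℝ) (p : Fin m × Fin n) : ℝ :=
  μ + ω (Sum.inl p.1) + ω (Sum.inr (Sum.inl p.2)) + ω (Sum.inr (Sum.inr p))

/-- the expected Hessian A -/
def info (m n : ℕ) (F : Fin 3 → Measure ℝ) (μ : ℝ) (θ : Fin 3 → ℝ) : Matrix (Fin 3) (Fin 3) ℝ :=
  Matrix.of fun k l => ∫ ω, pd (pd (reml (obs μ ω)) k) l θ ∂law m n F

/-- the random variable h' A⁻¹ b -/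
def hAb {m n : ℕ} (F : Fin 3 → Measure ℝ) (μ : ℝ) (θ : Fin 3 → ℝ) (a₀ : ℝ) (a₁ : Fin m → ℝ)
    (a₂ : Fin n → ℝ) (ω : Fin m ⊕ Fin n ⊕ Fin m × Fin n → ℝ) : ℝ :=
  (fun k => pd (blup a₀ a₁ a₂ (obs μ ω)) k θ) ⬝ᵥ
    ((info m n F μ θ)⁻¹ *ᵥ fun k => pd (reml (obs μ ω)) k θ)

/-- the approximation s -/
def sfun {m n : ℕ} (θ κ : Fin 3 → ℝ) (a₁ : Fin m → ℝ) (a₂ : Fin n → ℝ) : ℝ :=
  θ 0 ^ 2 * n ^ 2 * θ 1 * (κ 1 - θ 1 ^ 2) * (∑ i, (a₁ i - (∑ i', a₁ i') / m) ^ 2) /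
      ((θ 0 + n * θ 1) ^ 4 * (m - 1)) +
    θ 0 ^ 2 * m ^ 2 * θ 2 * (κ 2 - θ 2 ^ 2) * (∑ j, (a₂ j - (∑ j', a₂ j') / n) ^ 2) /
      ((θ 0 + m * θ 2) ^ 4 * (n - 1))

end

end Pool.Agent.MP_ca614b_pr.H61
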