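import Pool.Agent.MP_ca614b_pr.H61.Alg

/-!
Derivatives in θ of the restricted likelihood and of the BLUP.
-/

set_option autoImplicit false

open Matrix Filter Topology

namespace Pool.Agent.MP_ca614b_pr.H61

noncomputable section

variable {m n : ℕ}

def Lm (m n : ℕ) : Matrix (Fin 3) (Fin 3) ℝ := !![1, 0, 0; 1, n, 0; 1, 0, m]
def lam (m n : ℕ) (θ : Fin 3 → ℝ) : Fin 3 → ℝ := ![θ 0, θ 0 + n * θ 1, θ 0 + m * θ 2]
def df (m n : ℕ) : Fin 3 → ℝ := ![((m : ℝ) - 1) * (n - 1), (m : ℝ) - 1, (n : ℝ) - 1]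
def qq (y : Fin m × Fin n → ℝ) : Fin 3 → ℝ := ![q0 y, q1 y, q2 y]

theorem lam_pos (hm : 0 < (m : ℝ)) (hn : 0 < (n : ℝ)) {θ : Fin 3 → ℝ} (h : Pos θ) (r : Fin 3) :
    0 < lam m n θ r := by
  have h0 := h 0
  have h1 := h 1
  have h2 := h 2
  fin_cases r <;> simp [lam] <;> positivity

theorem lam_deriv (θ : Fin 3 → ℝ) (r k : Fin 3) :
    HasDerivAt (fun t => lam m n (Function.update θ k t) r) (Lm m n r k) (θ k) := by
  have e : (fun t => lam m n (Function.update θ k t) r) =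
      fun t => Lm m n r k * (t - θ k) + lam m n θ r := by
    funext t
    fin_cases r <;> fin_cases k <;> simp [lam, Lm] <;> ring
  rw [e]
  simpa using (((hasDerivAt_id (θ k)).sub_const (θ k)).const_mul (Lm m n r k)).add_const
    (lam m n θ r)

theorem pos_eventually {θ : Fin 3 → ℝ} (h : Pos θ) (k : Fin 3) :
    ∀ᶠ t in 𝓝 (θ k), Pos (Function.update θ k t) := by
  filter_upwards [lt_mem_nhds (h k)] with t ht
  intro j
  by_cases hj : j = k
  · subst hj; simpa using ht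
  · rw [Function.update_of_ne hj]; exact h j

theorem hasDeriv_congr {f g : (Fin 3 → ℝ) → ℝ} (hfg : ∀ θ, Pos θ → f θ = g θ) {θ : Fin 3 → ℝ}
    (h : Pos θ) {k : Fin 3} {d : ℝ} (hd : HasDerivAt (fun t => g (Function.update θ k t)) d (θ k)) :
    HasDerivAt (fun t => f (Function.update θ k t)) d (θ k) :=
  hd.congr_of_eventuallyEq ((pos_eventually h k).mono fun _ ht => hfg _ ht)

theorem hasDeriv_sum (φ : Fin 3 → ℝ → ℝ) (φ' : Fin 3 → ℝ) (c : ℝ) (θ : Fin 3 → ℝ) (k : Fin 3)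
    (h : ∀ r, HasDerivAt (φ r) (φ' r) (lam m n θ r)) :
    HasDerivAt (fun t => ∑ r, φ r (lam m n (Function.update θ k t) r) + c)
      (∑ r, φ' r * Lm m n r k) (θ k) := by
  refine HasDerivAt.add_const c (HasDerivAt.fun_sum fun r _ => ?_)
  have h1 : HasDerivAt (φ r) (φ' r) (lam m n (Function.update θ k (θ k)) r) := by
    rw [Function.update_eq_self]; exact h r
  exact h1.comp (θ k) (lam_deriv θ r k)

def bvec (y : Fin m × Fin n → ℝ) (θ : Fin 3 → ℝ) (k : Fin 3) : ℝ :=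
  ∑ r, -(1 / 2) * (df m n r / lam m n θ r - qq y r / lam m n θ r ^ 2) * Lm m n r k

def hess (y : Fin m × Fin n → ℝ) (θ : Fin 3 → ℝ) (k l : Fin 3) : ℝ :=
  ∑ r, -(1 / 2) * (-df m n r / lam m n θ r ^ 2 + 2 * qq y r / lam m n θ r ^ 3) * Lm m n r k
    * Lm m n r l

def hvec (a₁ : Fin m → ℝ) (a₂ : Fin n → ℝ) (y : Fin m × Fin n → ℝ) (θ : Fin 3 → ℝ)
    (k : Fin 3) : ℝ :=
  -((Lm m n 0 k * lam m n θ 1 - lam m n θ 0 * Lm m n 1 k) / lam m n θ 1 ^ 2) * S1 a₁ y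
    + -((Lm m n 0 k * lam m n θ 2 - lam m n θ 0 * Lm m n 2 k) / lam m n θ 2 ^ 2) * S2 a₂ y

theorem reml_deriv (hm : 0 < (m : ℝ)) (hn : 0 < (n : ℝ)) {θ : Fin 3 → ℝ} (h : Pos θ)
    (y : Fin m × Fin n → ℝ) (k : Fin 3) :
    HasDerivAt (fun t => reml y (Function.update θ k t)) (bvec y θ k) (θ k) := by
  refine hasDeriv_congr (g := fun θ => ∑ r, -(1 / 2) * (df m n r * Real.log (lam m n θ r)
    + qq y r / lam m n θ r) + -(1 / 2) * Real.log (m * n)) (fun θ h => ?_) h ?_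
  · rw [reml_eq hm hn h]
    rw [Fin.sum_univ_three]
    rfl
  · refine hasDeriv_sum (fun r x => -(1 / 2) * (df m n r * Real.log x + qq y r / x)) _ _ θ k
      fun r => ?_
    have hp := (lam_pos hm hn h r).ne'
    have := (((Real.hasDerivAt_log hp).const_mul (df m n r)).add
      ((hasDerivAt_inv hp).const_mul (qq y r))).const_mul (-(1 / 2) : ℝ)
    refine HasDerivAt.congr_deriv (f := fun x => -(1 / 2) * (df m n r * Real.log x + qq y r / x))
      this ?_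
    field_simp
    ring

theorem pd_reml (hm : 0 < (m : ℝ)) (hn : 0 < (n : ℝ)) {θ : Fin 3 → ℝ} (h : Pos θ)
    (y : Fin m × Fin n → ℝ) (k : Fin 3) : pd (reml y) k θ = bvec y θ k :=
  (reml_deriv hm hn h y k).deriv

theorem pd_reml_deriv (hm : 0 < (m : ℝ)) (hn : 0 < (n : ℝ)) {θ : Fin 3 → ℝ} (h : Pos θ)
    (y : Fin m × Fin n → ℝ) (k l : Fin 3) :
    HasDerivAt (fun t => pd (reml y) k (Function.update θ l t)) (hess y θ k l) (θ l) := by
  refine hasDeriv_congr (g := fun θ => bvec y θ k + 0)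
    (fun θ h => by rw [pd_reml hm hn h, add_zero]) h ?_
  refine hasDeriv_sum (fun r x => -(1 / 2) * (df m n r / x - qq y r / x ^ 2) * Lm m n r k) _ _ θ l
    fun r => ?_
  have hp := (lam_pos hm hn h r).ne'
  have := ((((hasDerivAt_inv hp).const_mul (df m n r)).sub
    (((hasDerivAt_pow 2 (lam m n θ r)).inv (pow_ne_zero 2 hp)).const_mul (qq y r))).const_mul
    (-(1 / 2) : ℝ)).mul_const (Lm m n r k)
  refine HasDerivAt.congr_deriv
    (f := fun x => -(1 / 2) * (df m n r / x - qq y r / x ^ 2) * Lm m n r k) this ?_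
  simp only [Nat.cast_ofNat]
  field_simp
  ring

theorem blup_deriv (hm : 0 < (m : ℝ)) (hn : 0 < (n : ℝ)) {θ : Fin 3 → ℝ} (h : Pos θ)
    (a₀ : ℝ) (a₁ : Fin m → ℝ) (a₂ : Fin n → ℝ) (y : Fin m × Fin n → ℝ) (k : Fin 3) :
    HasDerivAt (fun t => blup a₀ a₁ a₂ y (Function.update θ k t)) (hvec a₁ a₂ y θ k) (θ k) := by
  refine hasDeriv_congr (g := fun θ => a₀ * ybar y + (1 - lam m n θ 0 / lam m n θ 1) * S1 a₁ y
    + (1 - lam m n θ 0 / lam m n θ 2) * S2 a₂ y) (fun θ h => ?_) h ?_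
  · rw [blup_eq hm hn h]
    simp [lam]
  · have d1 := (lam_deriv (m := m) (n := n) θ 0 k).div (lam_deriv θ 1 k)
      (by rw [Function.update_eq_self]; exact (lam_pos hm hn h 1).ne')
    have d2 := (lam_deriv (m := m) (n := n) θ 0 k).div (lam_deriv θ 2 k)
      (by rw [Function.update_eq_self]; exact (lam_pos hm hn h 2).ne')
    rw [Function.update_eq_self] at d1 d2
    exact (((d1.const_sub 1).mul_const (S1 a₁ y)).const_add (a₀ * ybar y)).add
      ((d2.const_sub 1).mul_const (S2 a₂ y))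

def Amat (m n : ℕ) (θ : Fin 3 → ℝ) : Matrix (Fin 3) (Fin 3) ℝ :=
  (Lm m n)ᵀ * diagonal (fun r => -(1 / 2) * (df m n r / lam m n θ r ^ 2)) * Lm m n

theorem Amat_apply (θ : Fin 3 → ℝ) (k l : Fin 3) :
    Amat m n θ k l = ∑ r, -(1 / 2) * (df m n r / lam m n θ r ^ 2) * Lm m n r k * Lm m n r l := by
  rw [Amat, Matrix.mul_apply]
  exact Finset.sum_congr rfl fun r _ => by rw [mul_diagonal, transpose_apply]; ring

theorem df_pos (hm : 1 < (m : ℝ)) (hn : 1 < (n : ℝ)) (r : Fin 3) : 0 < df m n r := by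
  have h1 := sub_pos.2 hm
  have h2 := sub_pos.2 hn
  fin_cases r
  exacts [mul_pos h1 h2, h1, h2]

theorem Amat_det (hm : 1 < (m : ℝ)) (hn : 1 < (n : ℝ)) {θ : Fin 3 → ℝ} (h : Pos θ) :
    (Amat m n θ).det ≠ 0 := by
  have hm0 : 0 < (m : ℝ) := by linarith
  have hn0 : 0 < (n : ℝ) := by linarith
  have hL : (Lm m n).det ≠ 0 := by
    rw [det_fin_three]
    simp [Lm]
    exact ⟨by exact_mod_cast hn0.ne', by exact_mod_cast hm0.ne'⟩
  rw [Amat, det_mul, det_mul, det_transpose, det_diagonal]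
  refine mul_ne_zero (mul_ne_zero hL (Finset.prod_ne_zero_iff.2 fun r _ => ?_)) hL
  have := df_pos hm hn r
  have := lam_pos hm0 hn0 h r
  exact mul_ne_zero (by norm_num) (by positivity)

def Tform (a₁ : Fin m → ℝ) (a₂ : Fin n → ℝ) (y : Fin m × Fin n → ℝ) (θ : Fin 3 → ℝ) : ℝ :=
  (S1 a₁ y / (θ 0 + n * θ 1) + S2 a₂ y / (θ 0 + m * θ 2)) * (q0 y / ((m - 1) * (n - 1)) - θ 0)
    - θ 0 * S1 a₁ y * (q1 y / (m - 1) - (θ 0 + n * θ 1)) / (θ 0 + n * θ 1) ^ 2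
    - θ 0 * S2 a₂ y * (q2 y / (n - 1) - (θ 0 + m * θ 2)) / (θ 0 + m * θ 2) ^ 2

theorem hAb_formula (hm : 1 < (m : ℝ)) (hn : 1 < (n : ℝ)) {θ : Fin 3 → ℝ} (h : Pos θ)
    (a₁ : Fin m → ℝ) (a₂ : Fin n → ℝ) (y : Fin m × Fin n → ℝ) :
    hvec a₁ a₂ y θ ⬝ᵥ ((Amat m n θ)⁻¹ *ᵥ bvec y θ) = Tform a₁ a₂ y θ := by
  have hm0 : 0 < (m : ℝ) := by linarith
  have hn0 : 0 < (n : ℝ) := by linarith
  have hm1 := (sub_pos.2 hm).ne'
  have hn1 := (sub_pos.2 hn).ne'
  have h0 := h 0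
  have h1 := h 1
  have h2 := h 2
  set d : Fin 3 → ℝ := fun r => lam m n θ r - qq y r / df m n r with hd
  set δ : Fin 3 → ℝ := ![d 0, (d 1 - d 0) / n, (d 2 - d 0) / m] with hδ
  have hL : Lm m n *ᵥ δ = d := by
    funext r
    fin_cases r <;> simp [Lm, hδ, mulVec, dotProduct, Fin.sum_univ_three] <;> field_simp <;> ring
  have hA : Amat m n θ *ᵥ δ = bvec y θ := by
    rw [Amat, ← mulVec_mulVec, ← mulVec_mulVec, hL]
    funext k
    simp only [mulVec, dotProduct, transpose_apply, bvec]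
    refine Finset.sum_congr rfl fun r _ => ?_
    have := (df_pos hm hn r).ne'
    have := (lam_pos hm0 hn0 h r).ne'
    rw [show (∑ x, diagonal (fun r => -(1 / 2) * (df m n r / lam m n θ r ^ 2)) r x * d x) =
      -(1 / 2) * (df m n r / lam m n θ r ^ 2) * d r from mulVec_diagonal _ d r, hd]
    field_simp
  rw [← hA, mulVec_mulVec, nonsing_inv_mul _ (Ne.isUnit (Amat_det hm hn h)), one_mulVec]
  simp [dotProduct, Fin.sum_univ_three, hvec, hδ, hd, Lm, lam, qq, df, Tform]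
  field_simp
  ring

end

end Pool.Agent.MP_ca614b_pr.H61
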