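import Pool.Agent.MP_ca614b_pr.H61.Side
import Pool.Agent.MP_ca614b_pr.H61.Der

/-!
The second moment of h' A⁻¹ b up to a lower-order error.
-/

set_option autoImplicit false
set_option linter.unusedSectionVars false

open MeasureTheory ProbabilityTheory Matrix

namespace Pool.Agent.MP_ca614b_pr.H61

noncomputable section

variable {m n : ℕ}

abbrev Ix (m n : ℕ) := Fin m ⊕ Fin n ⊕ Fin m × Fin n

def rr (m n : ℕ) (p : Fin m × Option (Fin n)) : Ix m n :=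
  p.2.elim (Sum.inl p.1) fun j => Sum.inr (Sum.inr (p.1, j))
def rc (m n : ℕ) (p : Fin n × Option (Fin m)) : Ix m n :=
  p.2.elim (Sum.inr (Sum.inl p.1)) fun i => Sum.inr (Sum.inr (i, p.1))

theorem rr_inj : Function.Injective (rr m n) := by
  rintro ⟨i, _ | j⟩ ⟨i', _ | j'⟩ h <;> simp_all [rr]

theorem rc_inj : Function.Injective (rc m n) := by
  rintro ⟨i, _ | j⟩ ⟨i', _ | j'⟩ h <;> simp_all [rc]

def ee (ω : Ix m n → ℝ) (p : Fin m × Fin n) : ℝ := ω (Sum.inr (Sum.inr p))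

theorem eb_rr (i : Fin m) (ω : Ix m n → ℝ) : eb (rr m n) i ω = rm (ee ω) i := by
  simp [eb, rm, rr, ee, Finset.mul_sum, div_eq_inv_mul]

theorem eb_rc (j : Fin n) (ω : Ix m n → ℝ) : eb (rc m n) j ω = cm (ee ω) j := by
  simp [eb, cm, rc, ee, Finset.mul_sum, div_eq_inv_mul]

theorem shift (hm : (m : ℝ) ≠ 0) (R z a : Fin m → ℝ) (g c : ℝ) (hs : ∑ i, R i = m * g)
    (hz : ∀ i, R i = z i + c) :
    ∑ i, a i * (R i - g) = ∑ i, (a i - (∑ i', a i') / m) * z i ∧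
    ∑ i, R i ^ 2 - m * g ^ 2 = ∑ i, z i ^ 2 - m * (∑ i, (m : ℝ)⁻¹ * z i) ^ 2 := by
  have h1 : ∑ i, z i = m * (g - c) := by
    simp only [hz, Finset.sum_add_distrib, Finset.sum_const, Finset.card_univ, Fintype.card_fin,
      nsmul_eq_mul] at hs
    linarith
  constructor
  · have : ∀ i, a i * (R i - g) = a i * z i - a i * (g - c) := fun i => by rw [hz]; ring
    simp only [this, sub_mul, Finset.sum_sub_distrib, ← Finset.mul_sum, ← Finset.sum_mul, h1]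
    field_simp
  · have : ∀ i, R i ^ 2 = z i ^ 2 + 2 * c * z i + c ^ 2 := fun i => by rw [hz]; ring
    simp only [this, Finset.sum_add_distrib, ← Finset.mul_sum, h1, Finset.sum_const,
      Finset.card_univ, Fintype.card_fin, nsmul_eq_mul]
    field_simp
    ring

theorem rm_obs (hn : (n : ℝ) ≠ 0) (μ : ℝ) (ω : Ix m n → ℝ) (i : Fin m) :
    rm (obs μ ω) i = zz (rr m n) i ω + (μ + (∑ j, ω (Sum.inr (Sum.inl j))) / n) := by
  rw [zz, eb_rr]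
  simp only [rm, obs, rr, ee, Finset.sum_add_distrib, Finset.sum_const, Finset.card_univ,
    Fintype.card_fin, nsmul_eq_mul, Option.elim]
  field_simp
  ring

theorem cm_obs (hm : (m : ℝ) ≠ 0) (μ : ℝ) (ω : Ix m n → ℝ) (j : Fin n) :
    cm (obs μ ω) j = zz (rc m n) j ω + (μ + (∑ i, ω (Sum.inl i)) / m) := by
  rw [zz, eb_rc]
  simp only [cm, obs, rc, ee, Finset.sum_add_distrib, Finset.sum_const, Finset.card_univ,
    Fintype.card_fin, nsmul_eq_mul, Option.elim]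
  field_simp
  ring

theorem ybar_obs (hm : (m : ℝ) ≠ 0) (hn : (n : ℝ) ≠ 0) (μ : ℝ) (ω : Ix m n → ℝ) :
    ybar (obs μ ω) = μ + (∑ i, ω (Sum.inl i)) / m + (∑ j, ω (Sum.inr (Sum.inl j))) / n
      + ybar (ee ω) := by
  simp only [ybar, obs, ee, Finset.sum_add_distrib, Fintype.sum_prod_type, Finset.sum_const,
    Finset.card_univ, Fintype.card_fin, nsmul_eq_mul, ← Finset.mul_sum, Fintype.card_prod]
  push_cast
  field_simp

def X0 (t : ℝ) (ω : Ix m n → ℝ) : ℝ :=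
  ∑ p, (ee ω p ^ 2 - t) - Eb (rr m n) t ω - Eb (rc m n) t ω
    + (m * n * (∑ p, ((m : ℝ) * n)⁻¹ * ee ω p) ^ 2 - t)

theorem q0_obs (hm : (m : ℝ) ≠ 0) (hn : (n : ℝ) ≠ 0) (μ t : ℝ) (ω : Ix m n → ℝ) :
    q0 (obs μ ω) = X0 t ω + (m - 1) * (n - 1) * t := by
  have res : ∀ p : Fin m × Fin n, obs μ ω p - rm (obs μ ω) p.1 - cm (obs μ ω) p.2 + ybar (obs μ ω)
      = ee ω p - rm (ee ω) p.1 - cm (ee ω) p.2 + ybar (ee ω) := by
    intro p
    rw [rm_obs hn, cm_obs hm, ybar_obs hm hn, zz, zz, eb_rr, eb_rc]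
    simp only [obs, rr, rc, ee, Option.elim]
    ring
  have e1 : ∑ p : Fin m × Fin n, (μ + ω (Sum.inl p.1)) *
      (ee ω p - rm (ee ω) p.1 - cm (ee ω) p.2 + ybar (ee ω)) = 0 := by
    simp only [Fintype.sum_prod_type, ← Finset.mul_sum, res_row hm hn, mul_zero,
      Finset.sum_const_zero]
  have e2 : ∑ p : Fin m × Fin n, ω (Sum.inr (Sum.inl p.2)) *
      (ee ω p - rm (ee ω) p.1 - cm (ee ω) p.2 + ybar (ee ω)) = 0 := by
    simp only [Fintype.sum_prod_type_right, ← Finset.mul_sum, res_col hm hn, mul_zero,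
      Finset.sum_const_zero]
  have e3 : q0 (obs μ ω) = q0 (ee ω) := by
    rw [q0, q0, ← zero_add (∑ p, ee ω p * _), ← add_zero (0 : ℝ)]
    nth_rewrite 1 [← e1]
    rw [← e2, ← Finset.sum_add_distrib, ← Finset.sum_add_distrib]
    refine Finset.sum_congr rfl fun p _ => ?_
    rw [res]
    simp only [obs, ee]
    ring
  have e4 : ∑ p, ((m : ℝ) * n)⁻¹ * ee ω p = ybar (ee ω) := by
    rw [← Finset.mul_sum, ybar, div_eq_inv_mul]
  rw [e3, X0, e4, q0]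
  simp only [mul_add, mul_sub, Finset.sum_add_distrib, Finset.sum_sub_distrib, Eb, eb_rr, eb_rc,
    sum_mul_row hn (ee ω) (rm (ee ω)), sum_mul_col hm (ee ω) (cm (ee ω)), ← Finset.sum_mul,
    sum_all hm hn (ee ω), Finset.sum_const, Finset.card_univ, Fintype.card_fin, Fintype.card_prod,
    nsmul_eq_mul, ← Finset.mul_sum, sq]
  push_cast
  ring

theorem centered_le (hm : 0 < (m : ℝ)) (a : Fin m → ℝ) :
    ∑ i, (a i - (∑ i', a i') / m) = 0 ∧ ∑ i, (a i - (∑ i', a i') / m) ^ 2 ≤ ∑ i, a i ^ 2 := by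
  constructor
  · simp only [Finset.sum_sub_distrib, Finset.sum_const, Finset.card_univ, Fintype.card_fin,
      nsmul_eq_mul]
    field_simp
    ring
  · have := (shift hm.ne' (fun i => a i - (∑ i', a i') / m) a a 0 (-((∑ i', a i') / m)) (by
      simp only [Finset.sum_sub_distrib, Finset.sum_const, Finset.card_univ, Fintype.card_fin,
        nsmul_eq_mul]
      field_simp
      ring) (fun i => by ring)).2
    have h2 : 0 ≤ (m : ℝ) * (∑ i, (m : ℝ)⁻¹ * a i) ^ 2 := by positivity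
    simp only [ne_eq, OfNat.ofNat_ne_zero, not_false_eq_true, zero_pow, mul_zero, sub_zero] at this
    linarith

theorem final_ineq {x y B c α E₁ E₂ : ℝ} (hx : 0 < x) (hy : 0 < y) (hx1 : x ≤ 1) (hy1 : y ≤ 1)
    (hB : 1 ≤ B) (hc : 1 ≤ c) (hα : 0 ≤ α)
    (h₁ : E₁ ≤ (70000 * B ^ 5 * c ^ 2 * α * (x * y * (x + y) ^ 2)) *
      ((70000 * B ^ 5 * c ^ 2 * α * (x * y * (x + y) ^ 2)) +
        2 * (32 * B ^ 5 * c ^ 2 * α * (x * y * (x + y)))))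
    (h₂ : E₂ ≤ 2 * ((2 * B ^ 2 * c ^ 2 * (x ^ 2 * y ^ 2)) ^ 2 * (12 * B ^ 6 * α ^ 2))) :
    E₁ + E₂ ≤ 10 ^ 11 * B ^ 10 * c ^ 4 * α ^ 2 * ((x ^ 2 * y ^ 4 + x ^ 4 * y ^ 2) * (x + y)) := by
  have D0 : 0 ≤ B ^ 10 * c ^ 4 * α ^ 2 := by positivity
  have r1 : (x * y * (x + y)) ^ 2 ≤ 2 * (x ^ 2 * y ^ 4 + x ^ 4 * y ^ 2) := by
    nlinarith [sq_nonneg (x * y * (x - y))]
  have r2 : x ^ 4 * y ^ 4 ≤ (x ^ 2 * y ^ 4 + x ^ 4 * y ^ 2) * (x + y) := by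
    have : x ^ 4 * y ^ 4 ≤ x ^ 4 * y ^ 3 := by
      rw [show x ^ 4 * y ^ 4 = x ^ 4 * y ^ 3 * y by ring]
      exact mul_le_of_le_one_right (by positivity) hy1
    have : 0 ≤ x ^ 3 * y ^ 4 + x ^ 2 * y ^ 5 + x ^ 5 * y ^ 2 := by positivity
    nlinarith
  have r3 : (x * y * (x + y)) ^ 2 * (x + y) * (70000 * (70000 * (x + y) + 64))
      ≤ 2 * (x ^ 2 * y ^ 4 + x ^ 4 * y ^ 2) * (x + y) * (70000 * (70000 * 2 + 64)) := by
    gcongr
    linarith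
  have P0 : 0 ≤ (x ^ 2 * y ^ 4 + x ^ 4 * y ^ 2) * (x + y) := by positivity
  have s1 := mul_le_mul_of_nonneg_left r3 D0
  have s2 := mul_le_mul_of_nonneg_left r2 D0
  have s3 := mul_nonneg D0 P0
  nlinarith

theorem main_est (hm : 2 ≤ (m : ℝ)) (hn : 2 ≤ (n : ℝ)) (F : Fin 3 → Measure ℝ)
    [∀ k, IsProbabilityMeasure (F k)] {θ κ : Fin 3 → ℝ} (hθ : Pos θ) {B c : ℝ} (hB : 1 ≤ B)
    (hc : 1 ≤ c) (hc1 : (θ 1)⁻¹ ≤ c) (hc2 : (θ 2)⁻¹ ≤ c) (L : ∀ k, Law (F k) (θ k) B)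
    (hκ : ∀ k, Ex (F k) (fun x => x ^ 4) (κ k)) (μ a₀ : ℝ) (a₁ : Fin m → ℝ) (a₂ : Fin n → ℝ) :
    info m n F μ θ = Amat m n θ ∧
    Integrable (fun ω => hAb F μ θ a₀ a₁ a₂ ω ^ 2) (law m n F) ∧
    |∫ ω, hAb F μ θ a₀ a₁ a₂ ω ^ 2 ∂law m n F - sfun θ κ a₁ a₂| ≤
      10 ^ 11 * B ^ 10 * c ^ 4 * (∑ i, a₁ i ^ 2 + ∑ j, a₂ j ^ 2) *
        ((1 / (m * n ^ 2) + 1 / (m ^ 2 * n)) * ((√m)⁻¹ + (√n)⁻¹)) := by
  classical
  have hm0 : 0 < (m : ℝ) := by linarith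
  have hn0 : 0 < (n : ℝ) := by linarith
  have hm1 : 1 < (m : ℝ) := by linarith
  have hn1 : 1 < (n : ℝ) := by linarith
  have h0 := hθ 0
  have h1 := hθ 1
  have h2 := hθ 2
  set ν : Ix m n → Measure ℝ :=
    Sum.elim (fun _ => F 1) (Sum.elim (fun _ => F 2) (fun _ => F 0)) with hν
  have : ∀ k, IsProbabilityMeasure (ν k) := by
    rintro (i | j | p) <;> simp only [hν, Sum.elim_inl, Sum.elim_inr] <;> infer_instance
  have hlaw : law m n F = Measure.pi ν := rfl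
  rw [hlaw]
  set A := ∑ i, a₁ i ^ 2 + ∑ j, a₂ j ^ 2 with hA
  have A1 : 0 ≤ ∑ i, a₁ i ^ 2 := Finset.sum_nonneg fun _ _ => sq_nonneg _
  have A2 : 0 ≤ ∑ i, a₂ i ^ 2 := Finset.sum_nonneg fun _ _ => sq_nonneg _
  set α := √A with hα
  have hα0 : 0 ≤ α := Real.sqrt_nonneg _
  have hα2 : α ^ 2 = A := Real.sq_sqrt (by positivity)
  set b₁ : Fin m → ℝ := fun i => a₁ i - (∑ i', a₁ i') / m with hb₁
  set b₂ : Fin n → ℝ := fun i => a₂ i - (∑ i', a₂ i') / n with hb₂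
  obtain ⟨r1, r2, r3, r4, r5, r6, r7, r8⟩ := side (ν := ν) hm1.le hn1.le rr_inj (F₁ := F 1)
    (F₀ := F 0) (fun _ => rfl) (fun _ _ => rfl) (L 1) (L 0) hB (hκ 1) b₁ (centered_le hm0 a₁).1
    (α := α) (Real.sqrt_le_sqrt ((centered_le hm0 a₁).2.trans (by linarith)))
  obtain ⟨c1, c2, c3, c4, c5, c6, c7, c8⟩ := side (ν := ν) hn1.le hm1.le rc_inj (F₁ := F 2)
    (F₀ := F 0) (fun _ => rfl) (fun _ _ => rfl) (L 2) (L 0) hB (hκ 2) b₂ (centered_le hn0 a₂).1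
    (α := α) (Real.sqrt_le_sqrt ((centered_le hn0 a₂).2.trans (by linarith)))
  have hB0 : 0 ≤ B := by linarith
  have sn1 : 1 ≤ √n := Real.one_le_sqrt.2 hn1.le
  have sm1 : 1 ≤ √m := Real.one_le_sqrt.2 hm1.le
  have sn2 : √n ^ 2 = n := Real.sq_sqrt hn0.le
  have sm2 : √m ^ 2 = m := Real.sq_sqrt hm0.le
  -- the error sum of squares
  have inj : Function.Injective fun p : Fin m × Fin n => (Sum.inr (Sum.inr p) : Ix m n) :=
    fun p q h => by simpa using h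
  have blkE : Blocks ν fun p ω => ee ω p :=
    blocks_coord inj (φ := fun x => x) measurable_id fun _ => (L 0).mean
  have blkE2 : Blocks ν fun p ω => ee ω p ^ 2 - θ 0 :=
    blocks_coord inj (φ := fun x => x ^ 2 - θ 0) (by fun_prop) fun _ => (L 0).exw
  have bE : ∀ p, Bd (Measure.pi ν) 8 (fun ω => ee ω p) B := fun p =>
    bd_coord (ν := ν) (φ := fun x => x) (Sum.inr (Sum.inr p)) (L 0).bd
  have cs : ∑ _p : Fin m × Fin n, (((m : ℝ) * n)⁻¹) ^ 2 = ((m : ℝ) * n)⁻¹ := by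
    simp only [Finset.sum_const, Finset.card_univ, Fintype.card_prod, Fintype.card_fin,
      nsmul_eq_mul]
    push_cast
    field_simp
  have bX1 := blkE2.bd4 (b := 2 * B ^ 2) (by positivity) fun p =>
    bd_coord (ν := ν) (φ := fun x => x ^ 2 - θ 0) (Sum.inr (Sum.inr p)) (L 0).bdw
  rw [Fintype.card_prod, Fintype.card_fin, Fintype.card_fin, Nat.cast_mul,
    Real.sqrt_mul hm0.le] at bX1
  have bX2 := blkE.bd8 hB0 bE fun _ => ((m : ℝ) * n)⁻¹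
  rw [cs] at bX2
  have t0 := (L 0).abs_le
  have bX : Bd (Measure.pi ν) 4 (X0 (θ 0)) (89 * B ^ 2 * (√m * √n)) := by
    refine (((bX1.sub (by norm_num) r7).sub (by norm_num) c7).add (by norm_num)
      ((((bX2.mul8 bX2).congr fun ω => (sq _).symm).const_mul (m * n)).sub (by norm_num)
        (bd_const (by norm_num) _))).mono ?_
    have e : |(m : ℝ) * n| * (4 * B * √((m : ℝ) * n)⁻¹ * (4 * B * √((m : ℝ) * n)⁻¹))
        = 16 * B ^ 2 := by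
      have := Real.mul_self_sqrt (show 0 ≤ ((m : ℝ) * n)⁻¹ by positivity)
      rw [abs_of_pos (by positivity)]
      calc _ = 16 * B ^ 2 * ((m * n) * (√((m : ℝ) * n)⁻¹ * √((m : ℝ) * n)⁻¹)) := by ring
        _ = _ := by rw [this]; field_simp
    rw [e]
    have u1 : B ^ 2 * √m ≤ B ^ 2 * (√m * √n) := by
      gcongr; exact le_mul_of_one_le_right (by positivity) sn1
    have u2 : B ^ 2 * √n ≤ B ^ 2 * (√m * √n) := by
      gcongr; exact le_mul_of_one_le_left (by positivity) sm1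
    have u3 : B ^ 2 * 1 ≤ B ^ 2 * (√m * √n) := by
      gcongr; exact one_le_mul_of_one_le_of_one_le sm1 sn1
    linarith
  have xX : Ex (Measure.pi ν) (X0 (θ 0)) 0 := by
    refine ((((ex_sum Finset.univ fun p _ => ex_coord (ν := ν) (φ := fun x => x ^ 2 - θ 0)
      (Sum.inr (Sum.inr p)) (L 0).exw).sub r8).sub c8).add
      (((blkE.ex2 (v := θ 0) (fun p => ((bE p).down (k := 2) (by norm_num)).1)
        (fun p => (ex_coord (ν := ν) (φ := fun x => x ^ 2) (Sum.inr (Sum.inr p)) (L 0).var).2)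
        fun _ => ((m : ℝ) * n)⁻¹).const_mul (m * n)).sub (ex_const (θ 0)))).congr
      (fun _ => rfl) ?_
    rw [cs]
    simp only [Finset.sum_const_zero]
    field_simp
    ring
  -- the statistics in terms of the random effects
  have eS1 : ∀ ω, S1 a₁ (obs μ ω) = Sz (rr m n) b₁ ω := fun ω =>
    (shift hm0.ne' _ _ a₁ _ _ (sum_rm hm0.ne' hn0.ne' _) (rm_obs hn0.ne' μ ω)).1
  have eS2 : ∀ ω, S2 a₂ (obs μ ω) = Sz (rc m n) b₂ ω := fun ω =>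
    (shift hn0.ne' _ _ a₂ _ _ (sum_cm hm0.ne' hn0.ne' _) (cm_obs hm0.ne' μ ω)).1
  have eq1 : ∀ ω, q1 (obs μ ω) = n * Xz (rr m n) (θ 1) (θ 0) ω + (m - 1) * (θ 0 + n * θ 1) := by
    intro ω
    rw [Xz, ← (shift hm0.ne' _ _ a₁ _ _ (sum_rm hm0.ne' hn0.ne' _) (rm_obs hn0.ne' μ ω)).2, q1]
    field_simp
    ring
  have eq2 : ∀ ω, q2 (obs μ ω) = m * Xz (rc m n) (θ 2) (θ 0) ω + (n - 1) * (θ 0 + m * θ 2) := by
    intro ω
    rw [Xz, ← (shift hn0.ne' _ _ a₂ _ _ (sum_cm hm0.ne' hn0.ne' _) (cm_obs hm0.ne' μ ω)).2, q2]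
    field_simp
    ring
  have xq : ∀ r, Ex (Measure.pi ν) (fun ω => qq (obs μ ω) r) (df m n r * lam m n θ r) := by
    intro r
    fin_cases r
    · exact (xX.add (ex_const _)).congr (fun ω => (q0_obs hm0.ne' hn0.ne' μ (θ 0) ω).symm)
        (zero_add _)
    · exact ((r1.const_mul n).add (ex_const _)).congr (fun ω => (eq1 ω).symm) (by simp [df, lam])
    · exact ((c1.const_mul m).add (ex_const _)).congr (fun ω => (eq2 ω).symm) (by simp [df, lam])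
  have hinfo : info m n F μ θ = Amat m n θ := by
    ext k l
    rw [Amat_apply, info, of_apply, hlaw]
    refine ((ex_sum Finset.univ fun r _ => ((ex_const (-df m n r / lam m n θ r ^ 2)).add
      ((xq r).const_mul (2 / lam m n θ r ^ 3))).const_mul
        (-(1 / 2) * Lm m n r k * Lm m n r l)).congr (fun ω => ?_) ?_).2
    · rw [pd, (pd_reml_deriv hm0 hn0 hθ _ k l).deriv, hess]
      exact Finset.sum_congr rfl fun r _ => by ring
    · refine Finset.sum_congr rfl fun r _ => ?_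
      have := (lam_pos hm0 hn0 hθ r).ne'
      field_simp
      ring
  set l₁ := θ 0 + n * θ 1 with hl₁
  set l₂ := θ 0 + m * θ 2 with hl₂
  have l₁0 : 0 < l₁ := by positivity
  have l₂0 : 0 < l₂ := by positivity
  have m1 : 0 < (m : ℝ) - 1 := by linarith
  have n1 : 0 < (n : ℝ) - 1 := by linarith
  set p₁ := θ 0 * n * l₁⁻¹ ^ 2 * ((m : ℝ) - 1)⁻¹ with hp₁
  set p₂ := θ 0 * m * l₂⁻¹ ^ 2 * ((n : ℝ) - 1)⁻¹ with hp₂
  set Ts : (Ix m n → ℝ) → ℝ :=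
    fun ω => -p₁ * UW (rr m n) b₁ (θ 1) ω + -p₂ * UW (rc m n) b₂ (θ 2) ω with hTs
  set D : (Ix m n → ℝ) → ℝ := fun ω =>
    (l₁⁻¹ * Sz (rr m n) b₁ ω + l₂⁻¹ * Sz (rc m n) b₂ ω) *
        ((((m : ℝ) - 1)⁻¹ * ((n : ℝ) - 1)⁻¹) * X0 (θ 0) ω)
      + -p₁ * (Sz (rr m n) b₁ ω * Xz (rr m n) (θ 1) (θ 0) ω - UW (rr m n) b₁ (θ 1) ω)
      + -p₂ * (Sz (rc m n) b₂ ω * Xz (rc m n) (θ 2) (θ 0) ω - UW (rc m n) b₂ (θ 2) ω) with hD
  have hT : ∀ ω, hAb F μ θ a₀ a₁ a₂ ω = D ω + Ts ω := by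
    intro ω
    have e1 : (fun k => pd (blup a₀ a₁ a₂ (obs μ ω)) k θ) = hvec a₁ a₂ (obs μ ω) θ :=
      funext fun k => (blup_deriv hm0 hn0 hθ a₀ a₁ a₂ _ k).deriv
    have e2 : (fun k => pd (reml (obs μ ω)) k θ) = bvec (obs μ ω) θ :=
      funext fun k => pd_reml hm0 hn0 hθ _ k
    rw [hAb, hinfo, e1, e2, hAb_formula hm1 hn1 hθ, Tform, eS1, eS2, eq1, eq2,
      q0_obs hm0.ne' hn0.ne' μ (θ 0), ← hl₁, ← hl₂]
    simp only [hD, hTs, hp₁, hp₂]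
    field_simp
    ring
  set x := (√m)⁻¹ with hx
  set y := (√n)⁻¹ with hy
  have x0 : 0 < x := by positivity
  have y0 : 0 < y := by positivity
  have x1 : x ≤ 1 := inv_le_one_of_one_le₀ sm1
  have y1 : y ≤ 1 := inv_le_one_of_one_le₀ sn1
  have xm : √m = x⁻¹ := (inv_inv _).symm
  have yn : √n = y⁻¹ := (inv_inv _).symm
  have xm2 : (m : ℝ) = (x ^ 2)⁻¹ := by rw [← inv_pow, ← xm, sm2]
  have yn2 : (n : ℝ) = (y ^ 2)⁻¹ := by rw [← inv_pow, ← yn, sn2]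
  have f1 : l₁⁻¹ ≤ c * y ^ 2 := by
    calc l₁⁻¹ ≤ (n * θ 1)⁻¹ := inv_anti₀ (by positivity) (by linarith)
      _ = (θ 1)⁻¹ * y ^ 2 := by rw [yn2]; field_simp
      _ ≤ _ := by gcongr
  have f2 : l₂⁻¹ ≤ c * x ^ 2 := by
    calc l₂⁻¹ ≤ (m * θ 2)⁻¹ := inv_anti₀ (by positivity) (by linarith)
      _ = (θ 2)⁻¹ * x ^ 2 := by rw [xm2]; field_simp
      _ ≤ _ := by gcongr
  have f3 : ((m : ℝ) - 1)⁻¹ ≤ 2 * x ^ 2 := by
    calc ((m : ℝ) - 1)⁻¹ ≤ ((m : ℝ) / 2)⁻¹ := inv_anti₀ (by positivity) (by linarith)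
      _ = _ := by rw [xm2]; field_simp
  have f4 : ((n : ℝ) - 1)⁻¹ ≤ 2 * y ^ 2 := by
    calc ((n : ℝ) - 1)⁻¹ ≤ ((n : ℝ) / 2)⁻¹ := inv_anti₀ (by positivity) (by linarith)
      _ = _ := by rw [yn2]; field_simp
  have t0' : θ 0 ≤ B ^ 2 := (le_abs_self _).trans t0
  have p₁0 : 0 ≤ p₁ := by positivity
  have p₂0 : 0 ≤ p₂ := by positivity
  have g1 : p₁ ≤ 2 * B ^ 2 * c ^ 2 * (x ^ 2 * y ^ 2) := by
    calc p₁ ≤ B ^ 2 * n * (c * y ^ 2) ^ 2 * (2 * x ^ 2) := by rw [hp₁]; gcongr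
      _ = _ := by rw [yn2]; field_simp
  have g2 : p₂ ≤ 2 * B ^ 2 * c ^ 2 * (x ^ 2 * y ^ 2) := by
    calc p₂ ≤ B ^ 2 * m * (c * x ^ 2) ^ 2 * (2 * y ^ 2) := by rw [hp₂]; gcongr
      _ = _ := by rw [xm2]; field_simp
  have bTs : Bd (Measure.pi ν) 2 Ts (32 * B ^ 5 * c ^ 2 * α * (x * y * (x + y))) := by
    refine ((r4.const_mul (-p₁)).add (by norm_num) (c4.const_mul (-p₂))).mono ?_
    rw [abs_neg, abs_neg, abs_of_nonneg p₁0, abs_of_nonneg p₂0, xm, yn]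
    calc _ ≤ 2 * B ^ 2 * c ^ 2 * (x ^ 2 * y ^ 2) * (16 * B ^ 3 * α * x⁻¹)
          + 2 * B ^ 2 * c ^ 2 * (x ^ 2 * y ^ 2) * (16 * B ^ 3 * α * y⁻¹) := by gcongr
      _ = _ := by field_simp; ring
  have bD : Bd (Measure.pi ν) 2 D (70000 * B ^ 5 * c ^ 2 * α * (x * y * (x + y) ^ 2)) := by
    refine (((((r2.const_mul l₁⁻¹).add (by norm_num) (c2.const_mul l₂⁻¹)).mul4
      (bX.const_mul _)).add (by norm_num) (r3.const_mul (-p₁))).add (by norm_num)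
      (c3.const_mul (-p₂))).mono ?_
    rw [abs_neg, abs_neg, abs_of_nonneg p₁0, abs_of_nonneg p₂0, xm, yn,
      abs_of_pos (inv_pos.2 l₁0), abs_of_pos (inv_pos.2 l₂0), abs_of_pos (by positivity)]
    have k1 : B ^ 3 * c ≤ B ^ 5 * c ^ 2 := by
      have := pow_le_pow_right₀ hB (show 3 ≤ 5 by norm_num)
      have : c ≤ c ^ 2 := by nlinarith
      gcongr
    calc _ ≤ (c * y ^ 2 * (20 * B * α) + c * x ^ 2 * (20 * B * α)) *
            (2 * x ^ 2 * (2 * y ^ 2) * (89 * B ^ 2 * (x⁻¹ * y⁻¹)))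
          + 2 * B ^ 2 * c ^ 2 * (x ^ 2 * y ^ 2) * (30000 * B ^ 3 * α * (x⁻¹ / y⁻¹ + 1))
          + 2 * B ^ 2 * c ^ 2 * (x ^ 2 * y ^ 2) * (30000 * B ^ 3 * α * (y⁻¹ / x⁻¹ + 1)) := by
          gcongr
      _ = 7120 * (B ^ 3 * c) * α * (x * y * (x ^ 2 + y ^ 2))
          + 60000 * B ^ 5 * c ^ 2 * α * (x * y * (x + y) ^ 2) := by field_simp; ring
      _ ≤ 10000 * (B ^ 5 * c ^ 2) * α * (x * y * (x + y) ^ 2)
          + 60000 * B ^ 5 * c ^ 2 * α * (x * y * (x + y) ^ 2) := by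
          gcongr
          · norm_num
          · nlinarith [mul_pos x0 y0]
      _ = _ := by ring
  have bdiff := bD.mul2 (bD.add (by norm_num) (bTs.const_mul 2))
  rw [abs_two] at bdiff
  have cross : Ex (Measure.pi ν)
      (fun ω => UW (rr m n) b₁ (θ 1) ω * UW (rc m n) b₂ (θ 2) ω) (0 * 0) := by
    refine r5.indep c5 (indep_dep (S := Finset.univ.image fun i => rr m n (i, none))
      (T := Finset.univ.image fun j => rc m n (j, none)) ?_ (by unfold UW; fun_prop)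
      (by unfold UW; fun_prop) (fun ω ω' h => ?_) fun ω ω' h => ?_)
    · rw [Finset.disjoint_left]
      intro k hi hj
      obtain ⟨i, -, rfl⟩ := Finset.mem_image.1 hi
      obtain ⟨j, -, e⟩ := Finset.mem_image.1 hj
      simp [rr, rc] at e
    · have : ∀ i, ω (rr m n (i, none)) = ω' (rr m n (i, none)) := fun i => h _ (by simp)
      simp only [UW, this]
    · have : ∀ i, ω (rc m n (i, none)) = ω' (rc m n (i, none)) := fun i => h _ (by simp)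
      simp only [UW, this]
  have xTs := (((ex_pow r4.1 le_rfl).const_mul (p₁ ^ 2)).add
    ((ex_pow c4.1 le_rfl).const_mul (p₂ ^ 2))).add (cross.const_mul (2 * p₁ * p₂))
  have xT := ((ex_self bdiff.integrable).add xTs).congr
    (Y := fun ω => hAb F μ θ a₀ a₁ a₂ ω ^ 2) (fun ω => by rw [hT]; simp only [hTs]; ring) rfl
  refine ⟨hinfo, xT.1, ?_⟩
  have hs : sfun θ κ a₁ a₂ = p₁ ^ 2 * ((m - 1) * θ 1 * (κ 1 - θ 1 ^ 2) * ∑ i, b₁ i ^ 2)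
      + p₂ ^ 2 * ((n - 1) * θ 2 * (κ 2 - θ 2 ^ 2) * ∑ i, b₂ i ^ 2) := by
    rw [sfun, ← hl₁, ← hl₂, hp₁, hp₂]
    change _ * (∑ i, b₁ i ^ 2) / _ + _ * (∑ i, b₂ i ^ 2) / _ = _
    generalize ∑ i, b₁ i ^ 2 = s₁
    generalize ∑ i, b₂ i ^ 2 = s₂
    field_simp
  have hrate : 1 / ((m : ℝ) * n ^ 2) + 1 / (m ^ 2 * n) = x ^ 2 * y ^ 4 + x ^ 4 * y ^ 2 := by
    rw [xm2, yn2]; field_simp
  rw [xT.2, hs, hrate, ← hα2]
  have k1 := bdiff.abs_integral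
  generalize ∫ ω, D ω * (D ω + 2 * Ts ω) ∂Measure.pi ν = I₀ at k1 ⊢
  generalize ∫ ω, UW (rr m n) b₁ (θ 1) ω ^ 2 ∂Measure.pi ν = I₁ at r6 ⊢
  generalize ∫ ω, UW (rc m n) b₂ (θ 2) ω ^ 2 ∂Measure.pi ν = I₂ at c6 ⊢
  generalize ((m : ℝ) - 1) * θ 1 * (κ 1 - θ 1 ^ 2) * ∑ i, b₁ i ^ 2 = s₁ at r6 ⊢
  generalize ((n : ℝ) - 1) * θ 2 * (κ 2 - θ 2 ^ 2) * ∑ i, b₂ i ^ 2 = s₂ at c6 ⊢
  have e : I₀ + (p₁ ^ 2 * I₁ + p₂ ^ 2 * I₂ + 2 * p₁ * p₂ * (0 * 0)) - (p₁ ^ 2 * s₁ + p₂ ^ 2 * s₂)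
      = I₀ + (p₁ ^ 2 * (I₁ - s₁) + p₂ ^ 2 * (I₂ - s₂)) := by ring
  rw [e]
  refine (abs_add_le _ _).trans (final_ineq x0 y0 x1 y1 hB hc hα0 k1 ?_)
  refine (abs_add_le _ _).trans ?_
  rw [abs_mul, abs_mul, abs_of_nonneg (sq_nonneg p₁), abs_of_nonneg (sq_nonneg p₂), two_mul]
  gcongr

end

end Pool.Agent.MP_ca614b_pr.H61
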