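import Pool.Agent.MP_ca614b_pr.H61.Blk

/-!
Estimates for one family of random effects (rows or columns).
-/

set_option autoImplicit false
set_option linter.unusedSectionVars false

open MeasureTheory ProbabilityTheory
open scoped ENNReal

namespace Pool.Agent.MP_ca614b_pr.H61

noncomputable section

variable {ι : Type} [Fintype ι] {ν : ι → Measure ℝ} [∀ k, IsProbabilityMeasure (ν k)]
variable {m n : ℕ}

structure Law (F : Measure ℝ) (t B : ℝ) : Prop where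
  bd : Bd F 8 (fun x => x) B
  mean : Ex F (fun x => x) 0
  var : Ex F (fun x => x ^ 2) t

theorem Law.abs_le {F : Measure ℝ} [IsProbabilityMeasure F] {t B : ℝ} (h : Law F t B) :
    |t| ≤ B ^ 2 := by
  have := (((h.bd.mul8 h.bd).down (k := 1) (by norm_num)).congr fun x => (sq x).symm).abs_integral
  rwa [h.var.2, ← sq] at this

theorem Law.bdw {F : Measure ℝ} [IsProbabilityMeasure F] {t B : ℝ} (h : Law F t B) :
    Bd F 4 (fun x => x ^ 2 - t) (2 * B ^ 2) :=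
  (((h.bd.mul8 h.bd).congr fun x => (sq x).symm).sub (by norm_num)
    (bd_const (by norm_num) t)).mono (by nlinarith [h.abs_le])

theorem Law.exw {F : Measure ℝ} [IsProbabilityMeasure F] {t B : ℝ} (h : Law F t B) :
    Ex F (fun x => x ^ 2 - t) 0 := (h.var.sub (ex_const t)).congr (fun _ => rfl) (sub_self t)

def eb (r : Fin m × Option (Fin n) → ι) (i : Fin m) (ω : ι → ℝ) : ℝ :=
  ∑ j, (n : ℝ)⁻¹ * ω (r (i, some j))
def zz (r : Fin m × Option (Fin n) → ι) (i : Fin m) (ω : ι → ℝ) : ℝ :=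
  ω (r (i, none)) + eb r i ω
def Sz (r : Fin m × Option (Fin n) → ι) (a : Fin m → ℝ) (ω : ι → ℝ) : ℝ := ∑ i, a i * zz r i ω
def Xz (r : Fin m × Option (Fin n) → ι) (t₁ t₀ : ℝ) (ω : ι → ℝ) : ℝ :=
  ∑ i, zz r i ω ^ 2 - m * (∑ i, (m : ℝ)⁻¹ * zz r i ω) ^ 2 - (m - 1) * (t₁ + t₀ / n)
def UW (r : Fin m × Option (Fin n) → ι) (a : Fin m → ℝ) (t₁ : ℝ) (ω : ι → ℝ) : ℝ :=
  (∑ i, a i * ω (r (i, none))) * ∑ i, (ω (r (i, none)) ^ 2 - t₁)
def Eb (r : Fin m × Option (Fin n) → ι) (t₀ : ℝ) (ω : ι → ℝ) : ℝ :=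
  ∑ i, (n * eb r i ω ^ 2 - t₀)

theorem meas_eb (r : Fin m × Option (Fin n) → ι) (i : Fin m) : Measurable (eb r i) := by
  unfold eb; fun_prop

theorem blocks_row {r : Fin m × Option (Fin n) → ι} (hr : Function.Injective r)
    (φ : ℝ × ℝ → ℝ) (hφ : Measurable φ)
    (h0 : ∀ i, Ex (Measure.pi ν) (fun ω => φ (ω (r (i, none)), eb r i ω)) 0) :
    Blocks ν fun i ω => φ (ω (r (i, none)), eb r i ω) := by
  classical
  refine ⟨fun i => hφ.comp ((measurable_pi_apply _).prodMk (meas_eb r i)),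
    ⟨fun i => Finset.univ.image fun o => r (i, o), fun i j hij => ?_, fun i x y hxy => ?_⟩,
    fun i => (h0 i).2⟩
  · rw [Finset.disjoint_left]
    intro k hi hj
    obtain ⟨o, -, rfl⟩ := Finset.mem_image.1 hi
    obtain ⟨o', -, e⟩ := Finset.mem_image.1 hj
    exact hij (Prod.ext_iff.1 (hr e)).1.symm
  · have : ∀ o, x (r (i, o)) = y (r (i, o)) := fun o => hxy _ (by simp)
    simp only [eb, this]

theorem sqrt_inv_sum (hn : 0 < (n : ℝ)) : √(∑ _j : Fin n, ((n : ℝ)⁻¹) ^ 2) = (√n)⁻¹ := by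
  rw [← Real.sqrt_inv]
  congr 1
  simp only [Finset.sum_const, Finset.card_univ, Fintype.card_fin, nsmul_eq_mul]
  field_simp

theorem inv_sum (hn : 0 < (n : ℝ)) : ∑ _j : Fin n, ((n : ℝ)⁻¹) ^ 2 = (n : ℝ)⁻¹ := by
  simp only [Finset.sum_const, Finset.card_univ, Fintype.card_fin, nsmul_eq_mul]
  field_simp

theorem side (hm : 1 ≤ (m : ℝ)) (hn : 1 ≤ (n : ℝ)) {r : Fin m × Option (Fin n) → ι}
    (hr : Function.Injective r) {F₁ F₀ : Measure ℝ} [IsProbabilityMeasure F₁]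
    [IsProbabilityMeasure F₀] (h₁ : ∀ i, ν (r (i, none)) = F₁)
    (h₀ : ∀ i j, ν (r (i, some j)) = F₀) {t₁ t₀ B κ : ℝ} (L₁ : Law F₁ t₁ B) (L₀ : Law F₀ t₀ B)
    (hB : 1 ≤ B) (hκ : Ex F₁ (fun x => x ^ 4) κ) (a : Fin m → ℝ) (ha : ∑ i, a i = 0) {α : ℝ}
    (hα : √(∑ i, a i ^ 2) ≤ α) :
    Ex (Measure.pi ν) (Xz r t₁ t₀) 0 ∧ Bd (Measure.pi ν) 4 (Sz r a) (20 * B * α) ∧
    Bd (Measure.pi ν) 2 (fun ω => Sz r a ω * Xz r t₁ t₀ ω - UW r a t₁ ω)
      (30000 * B ^ 3 * α * (√m / √n + 1)) ∧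
    Bd (Measure.pi ν) 2 (UW r a t₁) (16 * B ^ 3 * α * √m) ∧ Ex (Measure.pi ν) (UW r a t₁) 0 ∧
    |∫ ω, UW r a t₁ ω ^ 2 ∂Measure.pi ν - (m - 1) * t₁ * (κ - t₁ ^ 2) * ∑ i, a i ^ 2|
      ≤ 12 * B ^ 6 * α ^ 2 ∧
    Bd (Measure.pi ν) 4 (Eb r t₀) (34 * B ^ 2 * √m) ∧ Ex (Measure.pi ν) (Eb r t₀) 0 := by
  classical
  have hm0 : 0 < (m : ℝ) := by linarith
  have hn0 : 0 < (n : ℝ) := by linarith
  have hB0 : 0 ≤ B := by linarith
  have hα0 : 0 ≤ α := (Real.sqrt_nonneg _).trans hα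
  have sn1 : 1 ≤ √n := Real.one_le_sqrt.2 hn
  have sm1 : 1 ≤ √m := Real.one_le_sqrt.2 hm
  have sn2 : √n ^ 2 = n := Real.sq_sqrt hn0.le
  have sm2 : √m ^ 2 = m := Real.sq_sqrt hm0.le
  have isn : 0 < (√n)⁻¹ ∧ (√n)⁻¹ ≤ 1 := ⟨by positivity, inv_le_one_of_one_le₀ sn1⟩
  have isn2 : (√n)⁻¹ ^ 2 = (n : ℝ)⁻¹ := by rw [inv_pow, sn2]
  have cx : ∀ i {φ : ℝ → ℝ} {v : ℝ}, Ex F₁ φ v →
      Ex (Measure.pi ν) (fun ω => φ (ω (r (i, none)))) v :=
    fun i φ v h => ex_coord _ (by rw [h₁]; exact h)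
  have cb : ∀ i {p : ℕ} {φ : ℝ → ℝ} {v : ℝ}, Bd F₁ p φ v →
      Bd (Measure.pi ν) p (fun ω => φ (ω (r (i, none)))) v :=
    fun i p φ v h => bd_coord _ (by rw [h₁]; exact h)
  have bu : ∀ i, Bd (Measure.pi ν) 8 (fun ω => ω (r (i, none))) B := fun i => cb i L₁.bd
  have ri : ∀ i, Function.Injective fun j : Fin n => r (i, some j) := fun i j j' e => by
    simpa using hr e
  have r0 : Function.Injective fun i : Fin m => r (i, none) := fun i i' e => by simpa using hr e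
  have blkE : ∀ i, Blocks ν fun j ω => ω (r (i, some j)) := fun i =>
    blocks_coord (ri i) (φ := fun x => x) measurable_id fun j => by rw [h₀]; exact L₀.mean
  have bE : ∀ i j, Bd (Measure.pi ν) 8 (fun ω => ω (r (i, some j))) B := fun i j =>
    bd_coord (φ := fun x => x) _ (by rw [h₀]; exact L₀.bd)
  have be : ∀ i, Bd (Measure.pi ν) 8 (eb r i) (4 * B * (√n)⁻¹) := fun i => by
    have := (blkE i).bd8 hB0 (bE i) fun _ => (n : ℝ)⁻¹
    rwa [sqrt_inv_sum hn0] at this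
  have xe1 : ∀ i, Ex (Measure.pi ν) (eb r i) 0 := fun i =>
    (blkE i).ex1 (fun j => ((bE i j).down (k := 1) (by norm_num)).integrable) _
  have xe2 : ∀ i, Ex (Measure.pi ν) (fun ω => eb r i ω ^ 2) (t₀ / n) := fun i =>
    ((blkE i).ex2 (v := t₀) (fun j => ((bE i j).down (k := 2) (by norm_num)).1)
      (fun j => (ex_coord (φ := fun x => x ^ 2) _ (by rw [h₀]; exact L₀.var)).2)
      fun _ => (n : ℝ)⁻¹).congr (fun _ => rfl) (by rw [inv_sum hn0]; ring)
  have xue : ∀ i, Ex (Measure.pi ν) (fun ω => ω (r (i, none)) * eb r i ω) 0 := fun i => by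
    refine ((cx i L₁.mean).indep (xe1 i) ?_).congr (fun _ => rfl) (by ring)
    refine indep_dep (S := {r (i, none)}) (T := Finset.univ.image fun j => r (i, some j)) ?_
      (measurable_pi_apply _) (meas_eb r i) (fun x y hxy => hxy _ (by simp)) fun x y hxy => ?_
    · rw [Finset.disjoint_singleton_left, Finset.mem_image]
      rintro ⟨j, -, e⟩
      simpa using hr e
    · have : ∀ j, x (r (i, some j)) = y (r (i, some j)) := fun o => hxy _ (by simp)
      simp only [eb, this]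
  have bz : ∀ i, Bd (Measure.pi ν) 8 (zz r i) (5 * B) := fun i =>
    ((bu i).add (by norm_num) (be i)).mono (by nlinarith [isn.1, isn.2])
  have xz2 : ∀ i, Ex (Measure.pi ν) (fun ω => zz r i ω ^ 2) (t₁ + t₀ / n) := fun i =>
    (((cx i L₁.var).add ((xue i).const_mul 2)).add (xe2 i)).congr
      (fun ω => by simp only [zz]; ring) (by ring)
  have blkz : Blocks ν (zz r) := blocks_row hr (fun p => p.1 + p.2) (by fun_prop)
    fun i => ((cx i L₁.mean).add (xe1 i)).congr (fun _ => rfl) (by ring)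
  have blke : Blocks ν (eb r) := blocks_row hr (fun p => p.2) (by fun_prop) xe1
  have blku : Blocks ν fun i ω => ω (r (i, none)) :=
    blocks_coord r0 (φ := fun x => x) measurable_id fun j => by rw [h₁]; exact L₁.mean
  have blkw : Blocks ν fun i ω => ω (r (i, none)) ^ 2 - t₁ :=
    blocks_coord r0 (φ := fun x => x ^ 2 - t₁) (by fun_prop) fun j => by rw [h₁]; exact L₁.exw
  have blkY : Blocks ν fun i ω => 2 * (ω (r (i, none)) * eb r i ω) + (eb r i ω ^ 2 - t₀ / n) :=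
    blocks_row hr (fun p => 2 * (p.1 * p.2) + (p.2 ^ 2 - t₀ / n)) (by fun_prop)
      fun i => (((xue i).const_mul 2).add ((xe2 i).sub (ex_const _))).congr (fun _ => rfl) (by ring)
  have xE : ∀ i, Ex (Measure.pi ν) (fun ω => n * eb r i ω ^ 2 - t₀) 0 := fun i =>
    (((xe2 i).const_mul n).sub (ex_const t₀)).congr (fun _ => rfl) (by field_simp; ring)
  have blkEb : Blocks ν fun i ω => n * eb r i ω ^ 2 - t₀ :=
    blocks_row hr (fun p => n * p.2 ^ 2 - t₀) (by fun_prop) xE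
  have be2 : ∀ i, Bd (Measure.pi ν) 4 (fun ω => eb r i ω ^ 2) (16 * B ^ 2 * (n : ℝ)⁻¹) := fun i =>
    (((be i).mul8 (be i)).congr fun ω => (sq _).symm).mono (le_of_eq (by rw [← isn2]; ring))
  have t0 := L₀.abs_le
  have t1 := L₁.abs_le
  have t0n : |t₀ / n| ≤ B ^ 2 * (n : ℝ)⁻¹ := by
    rw [abs_div, abs_of_pos hn0, div_eq_mul_inv]
    exact mul_le_mul_of_nonneg_right t0 (by positivity)
  have inv_le : (n : ℝ)⁻¹ ≤ (√n)⁻¹ := by rw [← isn2]; nlinarith [isn.1, isn.2]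
  have bY : ∀ i, Bd (Measure.pi ν) 4
      (fun ω => 2 * (ω (r (i, none)) * eb r i ω) + (eb r i ω ^ 2 - t₀ / n))
      (25 * B ^ 2 * (√n)⁻¹) := fun i =>
    ((((bu i).mul8 (be i)).const_mul 2).add (by norm_num)
      ((be2 i).sub (by norm_num) (bd_const (by norm_num) _))).mono (by
        rw [abs_two]
        nlinarith [mul_le_mul_of_nonneg_left inv_le (sq_nonneg B)])
  have bU : Bd (Measure.pi ν) 8 (fun ω => ∑ i, a i * ω (r (i, none))) (4 * B * α) :=
    (blku.bd8 hB0 bu a).mono (by gcongr)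
  have bD : Bd (Measure.pi ν) 8 (fun ω => ∑ i, a i * eb r i ω) (16 * B * α * (√n)⁻¹) :=
    (blke.bd8 (by positivity) be a).mono (by
      calc 4 * (4 * B * (√n)⁻¹) * √(∑ i, a i ^ 2) ≤ 4 * (4 * B * (√n)⁻¹) * α := by gcongr
        _ = _ := by ring)
  have bS : Bd (Measure.pi ν) 8 (Sz r a) (20 * B * α) :=
    (blkz.bd8 (by positivity) bz a).mono (by
      calc 4 * (5 * B) * √(∑ i, a i ^ 2) ≤ 4 * (5 * B) * α := by gcongr
        _ = _ := by ring)
  have bW : Bd (Measure.pi ν) 4 (fun ω => ∑ i, (ω (r (i, none)) ^ 2 - t₁)) (4 * B ^ 2 * √m) :=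
    (blkw.bd4 (by positivity) fun i => cb i L₁.bdw).mono
      (le_of_eq (by rw [Fintype.card_fin]; ring))
  have bSY := blkY.bd4 (by positivity) bY
  rw [Fintype.card_fin] at bSY
  have bzb := blkz.bd8 (by positivity) bz fun _ => (m : ℝ)⁻¹
  rw [sqrt_inv_sum hm0] at bzb
  have bR : Bd (Measure.pi ν) 4
      (fun ω => m * (∑ i, (m : ℝ)⁻¹ * zz r i ω) ^ 2 - (t₁ + t₀ / n)) (402 * B ^ 2) := by
    refine ((((bzb.mul8 bzb).congr fun ω => (sq _).symm).const_mul m).sub (by norm_num)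
      (bd_const (by norm_num) _)).mono ?_
    have e : |(m : ℝ)| * (4 * (5 * B) * (√m)⁻¹ * (4 * (5 * B) * (√m)⁻¹)) = 400 * B ^ 2 := by
      rw [abs_of_pos hm0]
      nth_rewrite 1 [← sm2]
      field_simp
      ring
    have := abs_add_le t₁ (t₀ / n)
    have : B ^ 2 * (n : ℝ)⁻¹ ≤ B ^ 2 * 1 := by gcongr; exact inv_le.trans isn.2
    linarith
  have xR : Ex (Measure.pi ν) (fun ω => m * (∑ i, (m : ℝ)⁻¹ * zz r i ω) ^ 2) (t₁ + t₀ / n) :=
    ((blkz.ex2 (fun i => ((bz i).down (k := 2) (by norm_num)).1) (fun i => (xz2 i).2)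
      fun _ => (m : ℝ)⁻¹).const_mul m).congr (fun _ => rfl) (by rw [inv_sum hm0]; field_simp)
  have b3 : Bd F₁ 2 (fun x => x * (x ^ 2 - t₁)) (B * (2 * B ^ 2)) :=
    (L₁.bd.down (k := 4) (by norm_num)).mul4 L₁.bdw
  have bη : Bd F₁ 1 (fun x => x ^ 2 * (x ^ 2 - t₁) ^ 2) (B * (2 * B ^ 2) * (B * (2 * B ^ 2))) :=
    (b3.mul2 b3).congr fun x => by ring
  have hτ : Ex F₁ (fun x => (x ^ 2 - t₁) ^ 2) (κ - t₁ ^ 2) :=
    ((hκ.sub (L₁.var.const_mul (2 * t₁))).add (ex_const (t₁ ^ 2))).congr (fun x => by ring)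
      (by ring)
  have hex := exactUW (ν := ν) r0 h₁ L₁.bd L₁.mean L₁.var hτ
    (ex_self (b3.down (k := 1) (by norm_num)).integrable) (ex_self bη.integrable) a Finset.univ
  refine ⟨?_, bS.down (by norm_num), ?_, ?_, ?_, ?_, ?_, ?_⟩
  · refine (((ex_sum Finset.univ fun i _ => xz2 i).sub xR).sub (ex_const _)).congr
      (fun _ => rfl) ?_
    simp only [Finset.sum_const, Finset.card_univ, Fintype.card_fin, nsmul_eq_mul]
    ring
  · refine ((((bS.down (k := 4) (by norm_num)).mul4 (bSY.sub (by norm_num) bR)).add (by norm_num)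
      ((bD.down (k := 4) (by norm_num)).mul4 bW)).congr fun ω => ?_).mono ?_
    · have e1 : ∑ i, zz r i ω ^ 2 = ∑ i, (ω (r (i, none)) ^ 2 - t₁) +
          ∑ i, (2 * (ω (r (i, none)) * eb r i ω) + (eb r i ω ^ 2 - t₀ / n))
          + m * (t₁ + t₀ / n) := by
        have : (m : ℝ) * (t₁ + t₀ / n) = ∑ _i : Fin m, (t₁ + t₀ / n) := by
          rw [Finset.sum_const, Finset.card_univ, Fintype.card_fin, nsmul_eq_mul]
        rw [this, ← Finset.sum_add_distrib, ← Finset.sum_add_distrib]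
        exact Finset.sum_congr rfl fun i _ => by simp only [zz]; ring
      have e2 : Sz r a ω = ∑ i, a i * ω (r (i, none)) + ∑ i, a i * eb r i ω := by
        rw [← Finset.sum_add_distrib]
        exact Finset.sum_congr rfl fun i _ => by simp only [zz]; ring
      rw [Xz, UW, e1, e2]
      ring
    · rw [div_eq_mul_inv]
      have : 0 ≤ B ^ 3 * α * (√m * (√n)⁻¹) := by positivity
      have : 0 ≤ B ^ 3 * α := by positivity
      nlinarith
  · exact ((bU.down (k := 4) (by norm_num)).mul4 bW).mono (le_of_eq (by ring))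
  · exact hex.1.congr (fun _ => rfl) (by rw [ha, mul_zero])
  · have e := (hex.2.congr (Y := fun ω => UW r a t₁ ω ^ 2) (fun ω => by rw [UW]; ring) rfl).2
    rw [e, ha]
    have c3 := (b3.down (k := 1) (by norm_num)).abs_integral
    have cη := bη.abs_integral
    generalize ∫ x, x * (x ^ 2 - t₁) ∂F₁ = c at c3 ⊢
    generalize ∫ x, x ^ 2 * (x ^ 2 - t₁) ^ 2 ∂F₁ = η at cη ⊢
    have A0 : 0 ≤ ∑ i, a i ^ 2 := Finset.sum_nonneg fun _ _ => sq_nonneg _
    have A1 : ∑ i, a i ^ 2 ≤ α ^ 2 := by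
      rw [← Real.sq_sqrt A0]; exact pow_le_pow_left₀ (Real.sqrt_nonneg _) hα 2
    generalize ∑ i, a i ^ 2 = A at A0 A1 ⊢
    have c2 : c ^ 2 ≤ (B * (2 * B ^ 2)) ^ 2 := by
      rw [← sq_abs]; exact pow_le_pow_left₀ (abs_nonneg _) c3 2
    have : A * (((Finset.univ : Finset (Fin m)).card : ℝ) - 1) * t₁ * (κ - t₁ ^ 2)
        + 2 * c ^ 2 * (0 ^ 2 - A) + A * η - (m - 1) * t₁ * (κ - t₁ ^ 2) * A
        = A * (η - 2 * c ^ 2) := by
      simp only [Finset.card_univ, Fintype.card_fin]; ring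
    rw [this, abs_mul, abs_of_nonneg A0, mul_comm]
    refine mul_le_mul ?_ A1 A0 (by positivity)
    have e1 : (B * (2 * B ^ 2)) ^ 2 = 4 * B ^ 6 := by ring
    have e2 : B * (2 * B ^ 2) * (B * (2 * B ^ 2)) = 4 * B ^ 6 := by ring
    have e3 : 0 ≤ B ^ 6 := by positivity
    rw [e1] at c2
    rw [e2] at cη
    rw [abs_le] at cη ⊢
    constructor <;> linarith [sq_nonneg c, cη.1, cη.2]
  · have := blkEb.bd4 (b := 17 * B ^ 2) (by positivity) fun i =>
      (((be2 i).const_mul n).sub (by norm_num) (bd_const (by norm_num) t₀)).mono (by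
        rw [abs_of_pos hn0]
        have : (n : ℝ) * (16 * B ^ 2 * (n : ℝ)⁻¹) = 16 * B ^ 2 := by field_simp
        linarith)
    rw [Fintype.card_fin] at this
    exact this.mono (le_of_eq (by ring))
  · exact (ex_sum Finset.univ fun i _ => xE i).congr (fun _ => rfl) (by simp)

end

end Pool.Agent.MP_ca614b_pr.H61
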